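import Mathlib

/-!
# Functions with values in a finite `p`-group: polynomial maps
-/

set_option autoImplicit false

namespace Pool.Agent.Helper399_SL.PolyJob

def doublePts (S : List (ℕ × Option Bool)) : ℕ := S.countP fun l => l.2.isNone

def extendG {B : Type*} [Monoid B] (letter : ℕ → Bool → B) {A : Type*} [AddCommGroup A] :
    (B → A) → List (ℕ × Option Bool) → A
  | f, [] => f 1
  | f, (i, some e) :: S => extendG letter (fun b => f (letter i e * b)) S
  | f, (i, none) :: S =>
      extendG letter (fun b => f (letter i true * b)) S -
        extendG letter (fun b => f (letter i false * b)) S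

section aux

variable {B : Type*} [Monoid B] (letter : ℕ → Bool → B)

theorem extendG_nil {A : Type*} [AddCommGroup A] (f : B → A) : extendG letter f [] = f 1 := rfl

theorem extendG_some {A : Type*} [AddCommGroup A] (f : B → A) (i : ℕ) (e : Bool)
    (S : List (ℕ × Option Bool)) : extendG letter f ((i, some e) :: S) =
      extendG letter (fun b => f (letter i e * b)) S := rfl

theorem extendG_none {A : Type*} [AddCommGroup A] (f : B → A) (i : ℕ)
    (S : List (ℕ × Option Bool)) : extendG letter f ((i, none) :: S) =
      extendG letter (fun b => f (letter i true * b)) S -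
        extendG letter (fun b => f (letter i false * b)) S := rfl

theorem extendG_add {A : Type*} [AddCommGroup A] (S : List (ℕ × Option Bool)) :
    ∀ f g : B → A, extendG letter (fun b => f b + g b) S =
      extendG letter f S + extendG letter g S := by
  induction S with
  | nil => intro f g; rfl
  | cons l S ih =>
    obtain ⟨i, o⟩ := l
    intro f g
    cases o with
    | none =>
      rw [extendG_none, extendG_none, extendG_none, ih, ih]
      abel
    | some e => rw [extendG_some, extendG_some, extendG_some, ih]

theorem extendG_neg {A : Type*} [AddCommGroup A] (S : List (ℕ × Option Bool)) :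
    ∀ f : B → A, extendG letter (fun b => - f b) S = - extendG letter f S := by
  induction S with
  | nil => intro f; rfl
  | cons l S ih =>
    obtain ⟨i, o⟩ := l
    intro f
    cases o with
    | none =>
      rw [extendG_none, extendG_none, ih, ih]
      abel
    | some e => rw [extendG_some, extendG_some, ih]

theorem extendG_sub {A : Type*} [AddCommGroup A] (S : List (ℕ × Option Bool)) (f g : B → A) :
    extendG letter (fun b => f b - g b) S = extendG letter f S - extendG letter g S := by
  have h : (fun b => f b - g b) = fun b => f b + (fun b => - g b) b := by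
    funext b
    exact sub_eq_add_neg _ _
  rw [h, extendG_add, extendG_neg, sub_eq_add_neg]

theorem extendG_map {A A' : Type*} [AddCommGroup A] [AddCommGroup A'] (φ : A →+ A')
    (S : List (ℕ × Option Bool)) :
    ∀ f : B → A, extendG letter (fun b => φ (f b)) S = φ (extendG letter f S) := by
  induction S with
  | nil => intro f; rfl
  | cons l S ih =>
    obtain ⟨i, o⟩ := l
    intro f
    cases o with
    | none => rw [extendG_none, extendG_none, ih, ih, map_sub]
    | some e => rw [extendG_some, extendG_some, ih]

theorem doublePts_some (i : ℕ) (e : Bool) (S : List (ℕ × Option Bool)) :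
    doublePts ((i, some e) :: S) = doublePts S := by
  simp [doublePts]

theorem doublePts_none (i : ℕ) (S : List (ℕ × Option Bool)) :
    doublePts ((i, none) :: S) = doublePts S + 1 := by
  simp [doublePts]

theorem extendG_const {A : Type*} [AddCommGroup A] (c : A) (S : List (ℕ × Option Bool)) :
    extendG letter (fun _ => c) S = if doublePts S = 0 then c else 0 := by
  induction S with
  | nil => simp [extendG_nil, doublePts]
  | cons l S ih =>
    obtain ⟨i, o⟩ := l
    cases o with
    | none => rw [extendG_none, sub_self, doublePts_none, if_neg (by omega)]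
    | some e => rw [extendG_some, ih, doublePts_some]

/-- `⌈x / (n + 1)⌉` -/
def cc (n x : ℕ) : ℕ := (x + n) / (n + 1)

theorem cc_mono (n : ℕ) {x y : ℕ} (h : x ≤ y) : cc n x ≤ cc n y :=
  Nat.div_le_div_right (by omega)

theorem cc_add (n x y : ℕ) : cc n (x + y) ≤ cc n x + cc n y := by
  unfold cc
  have h1 := Nat.div_add_mod (x + n) (n + 1)
  have h2 := Nat.div_add_mod (y + n) (n + 1)
  have h3 := Nat.mod_lt (x + n) (Nat.succ_pos n)
  have h4 := Nat.mod_lt (y + n) (Nat.succ_pos n)
  rw [Nat.div_le_iff_le_mul_add_pred (Nat.succ_pos n)]
  rw [mul_add]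
  simp only [Nat.succ_eq_add_one] at *
  omega

theorem cc_le_one (n : ℕ) {x : ℕ} (h : x ≤ n + 1) : cc n x ≤ 1 := by
  unfold cc
  rw [Nat.div_le_iff_le_mul_add_pred (Nat.succ_pos n)]
  omega

theorem le_cc (n K : ℕ) {x : ℕ} (h : (n + 1) * K ≤ x) : K ≤ cc n x := by
  unfold cc
  rw [Nat.le_div_iff_mul_le (Nat.succ_pos n)]
  calc K * (n + 1) = (n + 1) * K := mul_comm _ _
    _ ≤ x := h
    _ ≤ x + n := Nat.le_add_right _ _

variable {R : Type*} [CommRing R] (I : Ideal R)

/-- the extension of `f` lies in the filtration, shifted by `a` -/
def QQ (n M L : ℕ) (f : B → R) (a : ℕ) : Prop :=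
  ∀ S : List (ℕ × Option Bool), (∀ l ∈ S, l.1 + 1 < M) → S.length ≤ L →
    extendG letter f S ∈ I ^ cc n (a + doublePts S)

theorem QQ.tr {n M L a : ℕ} {f : B → R} (h : QQ letter I n M (L + 1) f a) {i : ℕ}
    (hi : i + 1 < M) (e : Bool) : QQ letter I n M L (fun b => f (letter i e * b)) a := by
  intro S hS hL
  have := h ((i, some e) :: S) (by
    intro l hl
    rcases List.mem_cons.1 hl with rfl | hl
    · exact hi
    · exact hS l hl) (by simpa using hL)
  rwa [extendG_some, doublePts_some] at this

theorem QQ.df {n M L a : ℕ} {f : B → R} (h : QQ letter I n M (L + 1) f a) {i : ℕ}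
    (hi : i + 1 < M) : QQ letter I n M L
      (fun b => f (letter i true * b) - f (letter i false * b)) (a + 1) := by
  intro S hS hL
  have := h ((i, Option.none) :: S) (by
    intro l hl
    rcases List.mem_cons.1 hl with rfl | hl
    · exact hi
    · exact hS l hl) (by simpa using hL)
  rw [extendG_none, doublePts_none, ← extendG_sub] at this
  have e : a + 1 + doublePts S = a + (doublePts S + 1) := by omega
  rw [e]
  exact this

theorem QQ.add {n M L a : ℕ} {f g : B → R} (h : QQ letter I n M L f a)
    (h' : QQ letter I n M L g a) : QQ letter I n M L (fun b => f b + g b) a := by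
  intro S hS hL
  rw [extendG_add]
  exact Ideal.add_mem _ (h S hS hL) (h' S hS hL)

theorem QQ.mono {n M L a a' : ℕ} {f : B → R} (h : QQ letter I n M L f a) (ha : a' ≤ a) :
    QQ letter I n M L f a' := by
  intro S hS hL
  exact Ideal.pow_le_pow_right (cc_mono n (by omega)) (h S hS hL)

theorem QQ.mul {n M : ℕ} : ∀ (L a a' : ℕ) (f g : B → R), QQ letter I n M L f a →
    QQ letter I n M L g a' → QQ letter I n M L (fun b => f b * g b) (a + a') := by
  intro L
  induction L with
  | zero =>
    intro a a' f g h h' S hS hL
    have : S = [] := List.length_eq_zero_iff.1 (by omega)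
    subst this
    rw [extendG_nil]
    have h1 := h [] (by simp) (by simp)
    have h2 := h' [] (by simp) (by simp)
    rw [extendG_nil] at h1 h2
    have h3 := Ideal.mul_mem_mul h1 h2
    rw [← pow_add] at h3
    simp only [doublePts, List.countP_nil, add_zero] at h3 ⊢
    exact Ideal.pow_le_pow_right (cc_add n a a') h3
  | succ L ih =>
    intro a a' f g h h' S hS hL
    cases S with
    | nil =>
      rw [extendG_nil]
      have h1 := h [] (by simp) (by simp)
      have h2 := h' [] (by simp) (by simp)
      rw [extendG_nil] at h1 h2
      have h3 := Ideal.mul_mem_mul h1 h2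
      rw [← pow_add] at h3
      simp only [doublePts, List.countP_nil, add_zero] at h3 ⊢
      exact Ideal.pow_le_pow_right (cc_add n a a') h3
    | cons l S =>
      obtain ⟨i, o⟩ := l
      have hi : i + 1 < M := hS (i, o) List.mem_cons_self
      have hS' : ∀ l ∈ S, l.1 + 1 < M := fun l hl => hS l (List.mem_cons_of_mem _ hl)
      have hL' : S.length ≤ L := by simpa using hL
      cases o with
      | some e =>
        rw [extendG_some, doublePts_some]
        exact ih a a' _ _ (h.tr letter I hi e) (h'.tr letter I hi e) S hS' hL'
      | none =>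
        rw [extendG_none, ← extendG_sub, doublePts_none]
        have e1 : (fun b => f (letter i true * b) * g (letter i true * b) -
            f (letter i false * b) * g (letter i false * b)) =
            fun b => (f (letter i true * b) - f (letter i false * b)) * g (letter i true * b) +
              f (letter i false * b) * (g (letter i true * b) - g (letter i false * b)) := by
          funext b
          ring
        rw [e1, extendG_add]
        refine Ideal.add_mem _ ?_ ?_
        · have := ih (a + 1) a' _ _ (h.df letter I hi) (h'.tr letter I hi true) S hS' hL'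
          have e2 : a + 1 + a' + doublePts S = a + a' + (doublePts S + 1) := by omega
          rwa [e2] at this
        · have := ih a (a' + 1) _ _ (h.tr letter I hi false) (h'.df letter I hi) S hS' hL'
          have e2 : a + (a' + 1) + doublePts S = a + a' + (doublePts S + 1) := by omega
          rwa [e2] at this

theorem QQ.one {n M L : ℕ} : QQ letter I n M L (fun _ => (1 : R)) 0 := by
  intro S _ _
  rw [extendG_const]
  split_ifs with h
  · rw [h]
    have : cc n (0 + 0) = 0 := by
      unfold cc
      exact Nat.div_eq_of_lt (by omega)
    rw [this, pow_zero, Ideal.one_eq_top]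
    exact Submodule.mem_top
  · exact Ideal.zero_mem _

end aux

section gen

variable {B : Type*} [Monoid B] (letter : ℕ → Bool → B) {E : Type*} [AddCommGroup E]
  {R : Type*} [CommRing R] (I : Ideal R) (e : E → R)

/-- `g` has degree at most `n - d` -/
def TT (n M : ℕ) (g : B → E) (d : ℕ) : Prop :=
  ∀ S : List (ℕ × Option Bool), (∀ l ∈ S, l.1 + 1 < M) → n < d + doublePts S →
    extendG letter g S = 0

theorem TT.tr {n M d : ℕ} {g : B → E} (h : TT letter n M g d) {i : ℕ} (hi : i + 1 < M)
    (e : Bool) : TT letter n M (fun b => g (letter i e * b)) d := by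
  intro S hS hL
  exact h ((i, some e) :: S) (by
    intro l hl
    rcases List.mem_cons.1 hl with rfl | hl
    · exact hi
    · exact hS l hl) (by rw [doublePts_some]; exact hL)

theorem TT.df {n M d : ℕ} {g : B → E} (h : TT letter n M g d) {i : ℕ} (hi : i + 1 < M) :
    TT letter n M (fun b => g (letter i true * b) - g (letter i false * b)) (d + 1) := by
  intro S hS hL
  rw [extendG_sub]
  exact h ((i, Option.none) :: S) (by
    intro l hl
    rcases List.mem_cons.1 hl with rfl | hl
    · exact hi
    · exact hS l hl) (by rw [doublePts_none]; omega)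

theorem TT.to_QQ (he0 : e 0 = 1) (headd : ∀ x y, e (x + y) = e x * e y)
    (heI : ∀ x, e x - 1 ∈ I) {n M : ℕ} :
    ∀ (L d : ℕ) (g : B → E), TT letter (n + 1) M g d →
      QQ letter I n M L (fun b => e (g b) - 1) d := by
  have base : ∀ (d : ℕ) (g : B → E), TT letter (n + 1) M g d →
      e (g 1) - 1 ∈ I ^ cc n (d + doublePts []) := by
    intro d g h
    have e0 : d + doublePts [] = d := by simp [doublePts]
    rw [e0]
    by_cases hd : d ≤ n + 1
    · have h1 : I ^ 1 ≤ I ^ cc n d := Ideal.pow_le_pow_right (cc_le_one n hd)
      apply h1
      rw [pow_one]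
      exact heI _
    · have h1 := h [] (by simp) (by rw [e0]; omega)
      rw [extendG_nil] at h1
      rw [h1, he0, sub_self]
      exact Ideal.zero_mem _
  intro L
  induction L with
  | zero =>
    intro d g h S hS hL
    have : S = [] := List.length_eq_zero_iff.1 (by omega)
    subst this
    exact base d g h
  | succ L ih =>
    intro d g h S hS hL
    cases S with
    | nil => exact base d g h
    | cons l S =>
      obtain ⟨i, o⟩ := l
      have hi : i + 1 < M := hS (i, o) List.mem_cons_self
      have hS' : ∀ l ∈ S, l.1 + 1 < M := fun l hl => hS l (List.mem_cons_of_mem _ hl)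
      have hL' : S.length ≤ L := by simpa using hL
      cases o with
      | some e' =>
        rw [extendG_some, doublePts_some]
        exact ih d _ (h.tr letter hi e') S hS' hL'
      | none =>
        rw [extendG_none, ← extendG_sub, doublePts_none]
        have e1 : (fun b => (e (g (letter i true * b)) - 1) - (e (g (letter i false * b)) - 1)) =
            fun b => (e (g (letter i true * b) - g (letter i false * b)) - 1) *
              (1 + (e (g (letter i false * b)) - 1)) := by
          funext b
          have h2 := headd (g (letter i true * b) - g (letter i false * b)) (g (letter i false * b))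
          rw [sub_add_cancel] at h2
          rw [h2]
          ring
        rw [e1]
        have q1 := ih (d + 1) _ (h.df letter hi)
        have q2 : QQ letter I n M L (fun b => 1 + (e (g (letter i false * b)) - 1)) 0 :=
          (QQ.one letter I).add letter I
            ((ih d _ (h.tr letter hi false)).mono letter I (Nat.zero_le d))
        have := QQ.mul letter I L (d + 1) 0 _ _ q1 q2 S hS' hL'
        have e2 : d + 1 + 0 + doublePts S = d + (doublePts S + 1) := by omega
        rwa [e2] at this

end gen

/-- TARGET -/
theorem poly_gen {B : Type*} [Monoid B] (letter : ℕ → Bool → B) {E : Type*} [AddCommGroup E]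
    [Finite E] {p : ℕ} [Fact p.Prime] {k : ℕ} (hE : ∀ x : E, (p ^ k) • x = 0) (n : ℕ) :
    ∃ N, ∀ (M : ℕ) (g : B → E),
      (∀ S : List (ℕ × Option Bool), (∀ l ∈ S, l.1 + 1 < M) → n < doublePts S →
        extendG letter g S = 0) →
      ∀ (χ : E → ZMod p) (S : List (ℕ × Option Bool)), (∀ l ∈ S, l.1 + 1 < M) →
        N ≤ doublePts S → extendG letter (fun b => χ (g b)) S = 0 := by
  classical
  let R := AddMonoidAlgebra (ZMod p) E
  let e : E → R := fun x => AddMonoidAlgebra.single x 1
  have he0 : e 0 = 1 := rfl
  have headd : ∀ x y, e (x + y) = e x * e y := by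
    intro x y
    show AddMonoidAlgebra.single (x + y) 1 = AddMonoidAlgebra.single x 1 * AddMonoidAlgebra.single y 1
    rw [AddMonoidAlgebra.single_mul_single, one_mul]
  let I : Ideal R := Ideal.span (Set.range fun x => e x - 1)
  have heI : ∀ x, e x - 1 ∈ I := fun x => Ideal.subset_span ⟨x, rfl⟩
  have hchar : CharP R p := charP_of_injective_algebraMap (algebraMap (ZMod p) R).injective p
  have hnil : ∀ x, IsNilpotent (e x - 1) := by
    intro x
    refine ⟨p ^ k, ?_⟩
    rw [sub_pow_char_pow, one_pow]
    have h1 : ∀ m : ℕ, e x ^ m = e (m • x) := by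
      intro m
      induction m with
      | zero => rw [pow_zero, zero_smul, he0]
      | succ m ih => rw [pow_succ, ih, add_smul, one_smul, headd]
    rw [h1, hE, he0, sub_self]
  have hI : IsNilpotent I := by
    rw [Ideal.FG.isNilpotent_iff_le_nilradical]
    · refine Ideal.span_le.2 ?_
      rintro _ ⟨x, rfl⟩
      exact hnil x
    · exact ⟨(Set.finite_range fun x => e x - 1).toFinset, by simp [I]⟩
  obtain ⟨K, hK⟩ := hI
  refine ⟨(n + 1) * K + 1, ?_⟩
  intro M g hg χ S hS hN
  have hT : TT letter (n + 1) M g 0 := fun S hS h => hg S hS (by omega)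
  have h1 := TT.to_QQ letter I e he0 headd heI (n := n) (M := M) S.length 0 g hT S hS le_rfl
  have h2 : I ^ cc n (0 + doublePts S) ≤ I ^ K := Ideal.pow_le_pow_right (le_cc n K (by omega))
  have h3 := h2 h1
  rw [hK] at h3
  have h4 : extendG letter (fun b => e (g b) - 1) S = 0 := h3
  rw [extendG_sub, extendG_const, if_neg (by omega), sub_zero] at h4
  let Λ : R →+ ZMod p := (Finsupp.linearCombination (ZMod p) χ).toAddMonoidHom.comp
    AddMonoidAlgebra.coeffAddEquiv.toAddMonoidHom
  have hΛ : ∀ x, Λ (e x) = χ x := by
    intro x
    show Finsupp.linearCombination (ZMod p) χ (AddMonoidAlgebra.single x (1 : ZMod p)).coeff = χ x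
    rw [AddMonoidAlgebra.coeff_single, Finsupp.linearCombination_single, one_smul]
  have h5 := extendG_map letter Λ S (fun b => e (g b))
  rw [h4, map_zero] at h5
  rw [← h5]
  congr 1
  funext b
  exact (hΛ _).symm

end Pool.Agent.Helper399_SL.PolyJob

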