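import Pool.Agent.Helper399_SL.Core
import Pool.Agent.Helper399_SL.PolyGen

/-!
# Functions of finite type invariants with values in a finite `p`-group
-/

set_option autoImplicit false

namespace Pool.Agent.Helper399_SL

theorem extendG_eq {B : Type*} [AddCommGroup B] (f : Braid → B) (S : SWord) :
    PolyJob.extendG letter f S = extend f S := by
  induction S generalizing f with
  | nil => rfl
  | cons l S ih =>
    rcases l with ⟨i, _ | e⟩
    · rw [PolyJob.extendG, extend, ih, ih]
    · rw [PolyJob.extendG, extend, ih]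

theorem poly {E : Type*} [AddCommGroup E] [Finite E] {p : ℕ} [Fact p.Prime] {k : ℕ}
    (hE : ∀ x : E, (p ^ k) • x = 0) (n : ℕ) :
    ∃ N, ∀ (M : ℕ) (g : Braid → E),
      (∀ S : SWord, S.Fits M → n < doublePoints S → extend g S = 0) →
      ∀ (χ : E → ZMod p) (S : SWord), S.Fits M → N ≤ doublePoints S →
        extend (fun b => χ (g b)) S = 0 := by
  obtain ⟨N, hN⟩ := PolyJob.poly_gen letter hE n
  refine ⟨N, fun M g hg χ S hS hd => ?_⟩
  rw [← extendG_eq]
  refine hN M g (fun S' hS' hd' => ?_) χ S hS hd
  rw [extendG_eq]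
  exact hg S' hS' hd'

end Pool.Agent.Helper399_SL
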