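import Pool.Agent.Helper399_SL.Braid

/-!
# String links as classes of braids: the basic definitions of the proof
-/

set_option autoImplicit false

namespace Pool.Agent.Helper399_SL

open FreeAbelianGroup (of)

/-! ### Invariant sets and cycles -/

/-- Two points lie in the same cycle if and only if no invariant set separates them. -/
theorem sameCycle_iff_forall {α : Type*} {w : Equiv.Perm α} {a b : α} :
    w.SameCycle a b ↔ ∀ P : α → Prop, (∀ x, P (w x) ↔ P x) → P a → P b := by
  constructor
  · rintro ⟨n, rfl⟩ P hP ha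
    have h1 : ∀ k : ℕ, ∀ x, P ((w ^ k) x) ↔ P x := by
      intro k
      induction k with
      | zero => intro x; simp
      | succ k ih => intro x; rw [pow_succ, Equiv.Perm.mul_apply, ih, hP]
    rcases n with n | n
    · simpa using (h1 n a).2 ha
    · have := (h1 (n + 1) ((w ^ (n + 1))⁻¹ a))
      rw [← Equiv.Perm.mul_apply, mul_inv_cancel, Equiv.Perm.one_apply] at this
      rw [zpow_negSucc]
      exact this.1 ha
  · intro h
    refine h (fun x => w.SameCycle a x) (fun x => ?_) (Equiv.Perm.SameCycle.refl _ _)
    exact Equiv.Perm.sameCycle_apply_right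

/-! ### Permutations of string links -/

/-- `w` permutes the positions below `M`, and every cycle below `M` contains exactly one of the
positions below `m`. -/
def Str (m M : ℕ) (w : Equiv.Perm ℕ) : Prop :=
  m ≤ M ∧ (∀ a, M ≤ a → w a = a) ∧ ∀ a < M, ∃! i, i < m ∧ w.SameCycle i a

/-- The number of the component of the position `a`. -/
noncomputable def lab {m M : ℕ} {w : Equiv.Perm ℕ} (hs : Str m M w) (a : Fin M) : Fin m :=
  ⟨(hs.2.2 a a.2).choose, (hs.2.2 a a.2).choose_spec.1.1⟩

theorem lab_same {m M : ℕ} {w : Equiv.Perm ℕ} (hs : Str m M w) (a : Fin M) :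
    w.SameCycle (lab hs a) a := (hs.2.2 a a.2).choose_spec.1.2

theorem lab_eq {m M : ℕ} {w : Equiv.Perm ℕ} (hs : Str m M w) (a : Fin M) (i : Fin m)
    (h : w.SameCycle i a) : lab hs a = i :=
  Fin.ext ((hs.2.2 a a.2).choose_spec.2 i ⟨i.2, h⟩).symm

theorem Str.eq_of_sameCycle {m M : ℕ} {w : Equiv.Perm ℕ} (hs : Str m M w) {i j : ℕ} (hi : i < m)
    (hj : j < m) (h : w.SameCycle i j) : i = j := by
  have h1 := (hs.2.2 j (lt_of_lt_of_le hj hs.1))
  exact h1.unique ⟨hi, h⟩ ⟨hj, Equiv.Perm.SameCycle.refl _ _⟩

/-- The string diagram of a braid. -/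
noncomputable def sd {m M : ℕ} (b : Braid) (hb : b ∈ strands M) (hs : Str m M (perm b)) :
    StringDiagram m where
  cl :=
    { M := M
      b := b
      mem := hb
      ell := lab hs
      num := by
        constructor
        · intro i
          exact ⟨Fin.castLE hs.1 i, lab_eq hs _ i (Equiv.Perm.SameCycle.refl _ _)⟩
        · intro a c
          constructor
          · intro h
            have h1 := lab_same hs a
            have h2 := lab_same hs c
            rw [h] at h1
            exact h1.symm.trans h2
          · intro h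
            exact lab_eq hs a _ ((lab_same hs c).trans h.symm) }
  based := ⟨hs.1, fun i => lab_eq hs _ i (Equiv.Perm.SameCycle.refl _ _)⟩

theorem str_of {m : ℕ} (D : StringDiagram m) : Str m D.cl.M (perm D.cl.b) := by
  obtain ⟨hm, hbas⟩ := D.based
  refine ⟨hm, fun a ha => perm_of_le D.cl.mem ha, fun a ha => ?_⟩
  refine ⟨D.cl.ell ⟨a, ha⟩, ⟨(D.cl.ell ⟨a, ha⟩).2, ?_⟩, ?_⟩
  · have := (D.cl.num.2 (Fin.castLE hm (D.cl.ell ⟨a, ha⟩)) ⟨a, ha⟩).1 (hbas _)
    exact this
  · rintro j ⟨hj, hj'⟩
    have := (D.cl.num.2 (Fin.castLE hm ⟨j, hj⟩) ⟨a, ha⟩).2 hj'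
    rw [hbas] at this
    exact congrArg Fin.val this

theorem sd_eta {m : ℕ} (D : StringDiagram m) : sd D.cl.b D.cl.mem (str_of D) = D := by
  obtain ⟨⟨M, b, mem, ell, num⟩, based⟩ := D
  have : lab (str_of ⟨⟨M, b, mem, ell, num⟩, based⟩) = ell := by
    funext a
    obtain ⟨hm, hbas⟩ := based
    apply lab_eq
    exact (num.2 (Fin.castLE hm (ell a)) a).1 (hbas _)
  simp only [sd, this]

/-! ### The group ring of the braids and the string links -/

/-- Formal sums of braids. -/
abbrev R : Type := FreeAbelianGroup Braid

/-- Formal sums of string links. -/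
abbrev A (m : ℕ) : Type := FreeAbelianGroup (StringLink m)

open Classical in
/-- The string link of the braid `b` with `M` strands, and zero if there is none. -/
noncomputable def T0 (m M : ℕ) (b : Braid) : A m :=
  if h : b ∈ strands M ∧ Str m M (perm b) then of (Quot.mk _ (sd b h.1 h.2)) else 0

/-- The linear extension of `T0`. -/
noncomputable def T (m M : ℕ) : R →ₗ[ℤ] A m := (FreeAbelianGroup.lift (T0 m M)).toIntLinearMap

theorem T_of (m M : ℕ) (b : Braid) : T m M (of b) = T0 m M b := by
  simp [T]

theorem T0_pos {m M : ℕ} {b : Braid} (hb : b ∈ strands M) (hs : Str m M (perm b)) :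
    T0 m M b = of (Quot.mk _ (sd b hb hs)) := by
  rw [T0, dif_pos ⟨hb, hs⟩]
  rfl

theorem T0_neg {m M : ℕ} {b : Braid} (h : ¬ (b ∈ strands M ∧ Str m M (perm b))) :
    T0 m M b = 0 := by
  rw [T0, dif_neg h]

theorem of_ne_zero {α : Type*} (s : α) : (of s : FreeAbelianGroup α) ≠ 0 := by
  intro h
  have := congrArg (FreeAbelianGroup.lift (fun _ : α => (1 : ℤ))) h
  simp at this

/-- Every string link is the class of a braid. -/
theorem exists_rep {m : ℕ} (s : StringLink m) :
    ∃ M b, b ∈ strands M ∧ Str m M (perm b) ∧ T0 m M b = of s := by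
  induction s using Quot.inductionOn with
  | h D =>
    refine ⟨D.cl.M, D.cl.b, D.cl.mem, str_of D, ?_⟩
    rw [T0_pos D.cl.mem (str_of D), sd_eta]
    rfl

theorem T0_eq_of {m M : ℕ} {b : Braid} {s : StringLink m} (h : T0 m M b = of s) :
    b ∈ strands M ∧ Str m M (perm b) := by
  by_contra hn
  rw [T0_neg hn] at h
  exact of_ne_zero s h.symm

theorem exists_of {m M : ℕ} {b : Braid} (hb : b ∈ strands M) (hs : Str m M (perm b)) :
    ∃ s : StringLink m, T0 m M b = of s := ⟨_, T0_pos hb hs⟩

/-- Formal sums of braids with `M` strands. -/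
def U (M : ℕ) : Submodule ℤ R := Submodule.span ℤ {x | ∃ b ∈ strands M, x = of b}

/-- Differences of a positive and a negative crossing. -/
def D (M : ℕ) : Submodule ℤ R :=
  Submodule.span ℤ {x | ∃ i, i + 1 < M ∧ x = of (sig i) - of (sig i)⁻¹}

/-- Formal sums of braids with `M` strands which come from singular braids with `j` double
points. -/
def I (M : ℕ) : ℕ → Submodule ℤ R
  | 0 => U M
  | j + 1 => U M * D M * I M j

/-- Formal sums of string links which come from singular string links with `j` double points. -/
noncomputable def J (m j : ℕ) : Submodule ℤ (A m) := ⨆ M, (I M j).map (T m M)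

/-- The value of the universal invariant of type `n`. -/
abbrev V (m n : ℕ) : Type := A m ⧸ J m (n + 1)

/-- The universal invariant of type `n`. -/
noncomputable def uni (m n : ℕ) (s : StringLink m) : V m n := Submodule.Quotient.mk (of s)

/-- The filtration of `V m n`. -/
noncomputable def Fil (m n j : ℕ) : Submodule ℤ (V m n) := (J m j).map (Submodule.mkQ (J m (n + 1)))

/-! ### Insertion of several strands -/

/-- Insertion of `z` strands at the positions `m, ..., m + z - 1`. -/
def wide (m : ℕ) : ℕ → Braid →* Braid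
  | 0 => MonoidHom.id _
  | z + 1 => (ins (m + z)).comp (wide m z)

/-- The extension of a homomorphism of braids to the group ring. -/
def ext (f : Braid →* Braid) : R →+* R := FreeAbelianGroup.liftMonoid (FreeAbelianGroup.ofMulHom.comp f)

@[simp] theorem ext_of (f : Braid →* Braid) (b : Braid) : ext f (of b) = of (f b) := by
  simp [ext, FreeAbelianGroup.liftMonoid]

/-- The data `h`, `k` of an operation on string links `Y ↦ h (Y × 1) k` for which the component `i`
of the result runs through the hole exactly once, as the component `i` of `Y`. -/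
structure Hole (m z : ℕ) (h k : Braid) : Prop where
  hh : h ∈ strands (m + z)
  hk : k ∈ strands (m + z)
  str : Str m (m + z) (perm (h * k))
  pass : ∀ i < m, (perm (h * k)).SameCycle ((perm k)⁻¹ i) i

/-! ### The lower central series of the pure braid groups -/

/-- Pure braids with `M` strands. -/
def pureB (M : ℕ) : Subgroup Braid := strands M ⊓ perm.ker

/-- `Gam M n` is the subgroup number `n + 1` of the lower central series of `pureB M`. -/
def Gam (M : ℕ) : ℕ → Subgroup Braid
  | 0 => pureB M
  | n + 1 => ⁅Gam M n, pureB M⁆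

/-- Two string links which differ by an element of `Gam M n`. -/
def E0 {m : ℕ} (n : ℕ) (s t : StringLink m) : Prop :=
  ∃ M X γ, γ ∈ Gam M n ∧ T0 m M (X * γ) = of s ∧ T0 m M X = of t

/-- The equivalence relation generated by `E0`. -/
def E {m : ℕ} (n : ℕ) : StringLink m → StringLink m → Prop := Relation.EqvGen (E0 n)

end Pool.Agent.Helper399_SL
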