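import Mathlib

/-!
# Links and string links as closures of braids, and their finite type invariants

Links are presented as closed braids: two closed braids are isotopic if and only if they are related
by conjugation and stabilization (theorems of Alexander and Markov). In the same way every string
link with `m` strands is obtained from a braid with `M ≥ m` strands by closing up the strands
`m, ..., M - 1`, and two such partial closures are isotopic relative to the boundary if and only if
they are related by stabilization and by conjugation with braids of the strands which are closed up
(the relative form of the theorem of Markov). The closure of such a string link is the closed braid.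
-/

set_option autoImplicit false

namespace Pool.Agent.Helper399_SL

/-! ### Braids -/

/-- The relations of Artin between the generators `σ₀, σ₁, σ₂, ...`. -/
def artin : Set (FreeGroup ℕ) :=
  {r | ∃ i j, i + 1 < j ∧ r = FreeGroup.of i * FreeGroup.of j * (FreeGroup.of j * FreeGroup.of i)⁻¹} ∪
  {r | ∃ i, r = FreeGroup.of i * FreeGroup.of (i + 1) * FreeGroup.of i *
    (FreeGroup.of (i + 1) * FreeGroup.of i * FreeGroup.of (i + 1))⁻¹}

/-- Braids with strands at the positions `0, 1, 2, ...`: the union of the braid groups with finitely
many strands. -/
abbrev Braid : Type := PresentedGroup artin

/-- The generator `σ i`: the positive crossing of the strands at the positions `i` and `i + 1`. -/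
def sig (i : ℕ) : Braid := PresentedGroup.of i

/-- The positive crossing `σ i` and the negative crossing `(σ i)⁻¹`. -/
def letter (i : ℕ) (e : Bool) : Braid := if e then sig i else (sig i)⁻¹

/-- The braid group with `M` strands, as a subgroup of `Braid`. -/
def strands (M : ℕ) : Subgroup Braid := Subgroup.closure {g | ∃ i, i + 1 < M ∧ g = sig i}

/-- The braids with `M` strands in which only the strands `m, ..., M - 1` take part. -/
def final (m M : ℕ) : Subgroup Braid := Subgroup.closure {g | ∃ i, m ≤ i ∧ i + 1 < M ∧ g = sig i}

theorem swap_far (i j : ℕ) (h : i + 1 < j) :
    Equiv.swap i (i + 1) * Equiv.swap j (j + 1) = Equiv.swap j (j + 1) * Equiv.swap i (i + 1) := by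
  ext k
  simp only [Equiv.Perm.mul_apply, Equiv.swap_apply_def]
  split_ifs <;> omega

theorem swap_braid (i : ℕ) :
    Equiv.swap i (i + 1) * Equiv.swap (i + 1) (i + 2) * Equiv.swap i (i + 1) =
      Equiv.swap (i + 1) (i + 2) * Equiv.swap i (i + 1) * Equiv.swap (i + 1) (i + 2) := by
  ext k
  simp only [Equiv.Perm.mul_apply, Equiv.swap_apply_def]
  split_ifs <;> omega

/-- The permutation of the positions given by a braid (the product `a * b` of two braids means that
one passes first through `b` and then through `a`). -/
def perm : Braid →* Equiv.Perm ℕ :=
  PresentedGroup.toGroup (f := fun i => Equiv.swap i (i + 1)) (by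
    rintro r (⟨i, j, h, rfl⟩ | ⟨i, rfl⟩)
    · simp only [map_mul, map_inv, FreeGroup.lift_apply_of, swap_far i j h, mul_inv_cancel]
    · simp only [map_mul, map_inv, FreeGroup.lift_apply_of, swap_braid i, mul_inv_cancel])

/-! ### Links -/

/-- `ell` numbers the components of the closure of the braid `b` with `M` strands: every number is
used, and two positions have the same number if and only if they belong to the same component, that
is, to the same cycle of the permutation of `b`. -/
def Numbers {m M : ℕ} (b : Braid) (ell : Fin M → Fin m) : Prop :=
  Function.Surjective ell ∧ ∀ a c : Fin M, ell a = ell c ↔ (perm b).SameCycle a c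

/-- A braid together with a numbering of the components of its closure: a diagram of an oriented
link with `m` numbered components. -/
structure LinkDiagram (m : ℕ) where
  /-- the number of strands -/
  M : ℕ
  /-- the braid -/
  b : Braid
  mem : b ∈ strands M
  /-- the numbering of the components -/
  ell : Fin M → Fin m
  num : Numbers b ell

/-- The moves of Markov: conjugation by a braid `g`, and stabilization, where a crossing with a new
strand is inserted somewhere in the braid; the numbering of the components is taken along. -/
inductive LinkMove {m : ℕ} (D E : LinkDiagram m) : Prop
  | conj (g : Braid) (hg : g ∈ strands D.M) (hM : E.M = D.M) (hb : E.b = g * D.b * g⁻¹)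
      (hl : ∀ (a : Fin D.M) (c : Fin E.M), perm g a = c → E.ell c = D.ell a)
  | stab (k : ℕ) (x y : Braid) (e : Bool) (hx : x ∈ strands (k + 1)) (hy : y ∈ strands (k + 1))
      (hD : D.M = k + 1) (hE : E.M = k + 2) (hb : D.b = x * y) (hb' : E.b = x * letter k e * y)
      (hl : ∀ (a : Fin D.M) (c : Fin E.M), (a : ℕ) = c → E.ell c = D.ell a)

/-- Oriented links with `m` numbered components up to isotopy. -/
def Link (m : ℕ) : Type := Quot (LinkMove (m := m))

/-! ### String links -/

/-- The strands `0, ..., m - 1` of the braid belong to the components `0, ..., m - 1`. -/
def Based {m M : ℕ} (ell : Fin M → Fin m) : Prop :=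
  ∃ h : m ≤ M, ∀ i : Fin m, ell (Fin.castLE h i) = i

/-- A diagram of a string link with `m` strands: a braid with `M ≥ m` strands of which the strands
`m, ..., M - 1` are closed up. The component which starts at the position `i < m` has to end at this
position, and there are no closed components: in other words, every component of the closure of the
braid contains exactly one of the strands `0, ..., m - 1`, and we number it accordingly. -/
structure StringDiagram (m : ℕ) where
  /-- the diagram of the closure of the string link -/
  cl : LinkDiagram m
  based : Based cl.ell

/-- The moves of Markov for string links: conjugation by a braid `g` of the strands which are closed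
up, and stabilization, where a crossing with a new strand is inserted somewhere in the braid. -/
inductive StringMove {m : ℕ} (D E : StringDiagram m) : Prop
  | conj (g : Braid) (hg : g ∈ final m D.cl.M) (hM : E.cl.M = D.cl.M)
      (hb : E.cl.b = g * D.cl.b * g⁻¹)
  | stab (k : ℕ) (x y : Braid) (e : Bool) (hx : x ∈ strands (k + 1)) (hy : y ∈ strands (k + 1))
      (hD : D.cl.M = k + 1) (hE : E.cl.M = k + 2) (hb : D.cl.b = x * y)
      (hb' : E.cl.b = x * letter k e * y)

/-- String links with `m` strands up to isotopy relative to the boundary. -/
def StringLink (m : ℕ) : Type := Quot (StringMove (m := m))

/-! ### Finite type invariants -/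

/-- Words in the crossings `(i, some true)` (positive), `(i, some false)` (negative) and the double
points `(i, none)` of the strands at the positions `i` and `i + 1`. -/
abbrev SWord : Type := List (ℕ × Option Bool)

/-- The number of double points. -/
def doublePoints (S : SWord) : ℕ := S.countP fun l => l.2.isNone

/-- The word describes a singular braid with `M` strands. -/
def SWord.Fits (M : ℕ) (S : SWord) : Prop := ∀ l ∈ S, l.1 + 1 < M

/-- The extension of a function of braids to singular braids by the Vassiliev skein relation: the
value at a double point is the difference of the values at the positive crossing and at the negative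
crossing. -/
def extend {A : Type*} [AddCommGroup A] : (Braid → A) → SWord → A
  | f, [] => f 1
  | f, (i, some e) :: S => extend (fun b => f (letter i e * b)) S
  | f, (i, none) :: S =>
      extend (fun b => f (letter i true * b)) S - extend (fun b => f (letter i false * b)) S

open Classical in
/-- The value of the link invariant `v` at the closure of the braid `b` with `M` strands whose
components are numbered by `ell` (and zero, if `b` does not have `M` strands or `ell` does not number
the components). -/
noncomputable def linkValue {m : ℕ} {A : Type*} [AddCommGroup A] (v : Link m → A) (M : ℕ)
    (ell : Fin M → Fin m) (b : Braid) : A :=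
  if h : b ∈ strands M ∧ Numbers b ell then v (Quot.mk _ ⟨M, b, h.1, ell, h.2⟩) else 0

open Classical in
/-- The value of the invariant `v` of string links at the string link obtained from the braid `b`
with `M` strands by closing up the strands `m, ..., M - 1` (and zero, if this is not a string link
with components numbered by `ell`). -/
noncomputable def stringValue {m : ℕ} {A : Type*} [AddCommGroup A] (v : StringLink m → A) (M : ℕ)
    (ell : Fin M → Fin m) (b : Braid) : A :=
  if h : (b ∈ strands M ∧ Numbers b ell) ∧ Based ell then
    v (Quot.mk _ ⟨⟨M, b, h.1.1, ell, h.1.2⟩, h.2⟩) else 0

/-- The link invariant `v` is of type `n`: its extension to singular links vanishes whenever there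
are `n + 1` double points. (Every singular link is the closure of a singular braid.) -/
def LinkType {m : ℕ} {A : Type*} [AddCommGroup A] (n : ℕ) (v : Link m → A) : Prop :=
  ∀ (M : ℕ) (ell : Fin M → Fin m) (S : SWord), S.Fits M → doublePoints S = n + 1 →
    extend (linkValue v M ell) S = 0

/-- The invariant `v` of string links is of type `n`: its extension to singular string links vanishes
whenever there are `n + 1` double points. -/
def StringType {m : ℕ} {A : Type*} [AddCommGroup A] (n : ℕ) (v : StringLink m → A) : Prop :=
  ∀ (M : ℕ) (ell : Fin M → Fin m) (S : SWord), S.Fits M → doublePoints S = n + 1 →
    extend (stringValue v M ell) S = 0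

/-- The string links `s` and `t` are not separated by invariants of type `n` (with values in any
abelian group). -/
def NotSeparated {m : ℕ} (n : ℕ) (s t : StringLink m) : Prop :=
  ∀ (A : Type) [AddCommGroup A] (v : StringLink m → A), StringType n v → v s = v t

/-! ### Links which are not separated by invariants of string links -/

/-- `L` is the closure of the string link `s`. -/
def IsClosure {m : ℕ} (s : StringLink m) (L : Link m) : Prop :=
  ∃ D : StringDiagram m, s = Quot.mk _ D ∧ L = Quot.mk _ D.cl

/-- The relation `L ≈ₙ L'`: the equivalence relation generated by the pairs of links which are
closures of string links which are not separated by invariants of type `n`. -/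
def Approx {m : ℕ} (n : ℕ) : Link m → Link m → Prop :=
  Relation.EqvGen fun L L' =>
    ∃ s t : StringLink m, NotSeparated n s t ∧ IsClosure s L ∧ IsClosure t L'

end Pool.Agent.Helper399_SL
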