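import Pool.Agent.Helper399_SL.Ring

/-!
# Operations on string links and the closure
-/

set_option autoImplicit false

namespace Pool.Agent.Helper399_SL

open Equiv
open FreeAbelianGroup (of)

/-! ### Stabilization with the new strand at the position `l` -/

theorem T0_ins_stab {m l L : ℕ} (hm : m ≤ l) (hl : 1 ≤ l) (hL : l ≤ L) {p q : Braid}
    (hp : p ∈ strands L) (hq : q ∈ strands L) (e : Bool) :
    T0 m (L + 1) (ins l p * letter (l - 1) e * ins l q) = T0 m L (p * q) := by
  obtain ⟨a, rfl⟩ : ∃ a, l = a + 1 := ⟨l - 1, by omega⟩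
  obtain ⟨n, rfl⟩ : ∃ n, L = a + 1 + n := ⟨L - (a + 1), by omega⟩
  have hr : run (a + 1) n ∈ final (a + 1) (a + 1 + n + 1) := run_mem _ _
  have hc : run a n ∈ strands (a + n + 1) := final_le _ _ (run_mem _ _)
  have e1 := run_conj_sig a n
  have e2 : (run (a + 1) n)⁻¹ * letter a e * run (a + 1) n =
      run a n * letter (a + n) e * (run a n)⁻¹ := by
    cases e
    · have := congrArg (fun x => x⁻¹) e1
      simp only [mul_inv_rev, inv_inv] at this
      simp only [letter_false, mul_assoc] at this ⊢
      exact this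
    · exact e1
  rw [ins_eq_run hL hp, ins_eq_run hL hq, show a + 1 + n - (a + 1) = n by omega,
    show a + 1 - 1 = a by omega]
  have e3 : run (a + 1) n * p * (run (a + 1) n)⁻¹ * letter a e *
      (run (a + 1) n * q * (run (a + 1) n)⁻¹) = run (a + 1) n *
      ((p * run a n) * letter (a + n) e * ((run a n)⁻¹ * q)) * (run (a + 1) n)⁻¹ := by
    calc run (a + 1) n * p * (run (a + 1) n)⁻¹ * letter a e *
        (run (a + 1) n * q * (run (a + 1) n)⁻¹)
        = run (a + 1) n * p * ((run (a + 1) n)⁻¹ * letter a e * run (a + 1) n) * q *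
          (run (a + 1) n)⁻¹ := by simp only [mul_assoc]
      _ = _ := by
          rw [e2]
          simp only [mul_assoc]
  rw [e3, T0_conj (final_mono hm le_rfl hr)]
  have h1 : a + 1 + n = a + n + 1 := by omega
  have h2 : a + 1 + n + 1 = a + n + 2 := by omega
  rw [h1] at hp hq
  rw [h2, h1, T0_stab (mul_mem hp hc) (mul_mem (inv_mem hc) hq) (by omega) e]
  congr 1
  group

/-! ### The operation `Y ↦ h (Y × 1) k` -/

theorem exists_hole {m z : ℕ} {h k : Braid} (H : Hole m z h k) :
    ∃ φ : A m →ₗ[ℤ] A m, ∀ M, m ≤ M → ∀ x ∈ U M,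
      φ (T m M x) = T m (M + z) (of h * ext (wide m z) x * of k) := by
  obtain ⟨φ, hφ⟩ := exists_lift (m := m) (fun M b => T0 m (M + z) (h * wide m z b * k))
    (by
      intro M g b hM hg _
      have hg' := wide_final (z := z) hg
      have c1 : Commute h (wide m z g) := commute_of_final H.hh hg'
      have c2 : Commute k (wide m z g) := commute_of_final H.hk hg'
      have e1 : h * wide m z (g * b * g⁻¹) * k =
          wide m z g * (h * wide m z b * k) * (wide m z g)⁻¹ := by
        rw [map_mul, map_mul, map_inv]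
        calc h * (wide m z g * wide m z b * (wide m z g)⁻¹) * k
            = (h * wide m z g) * wide m z b * ((wide m z g)⁻¹ * k) := by simp only [mul_assoc]
          _ = (wide m z g * h) * wide m z b * (k * (wide m z g)⁻¹) := by
              rw [c1.eq, c2.symm.inv_left.eq]
          _ = _ := by simp only [mul_assoc]
      show T0 m (M + z) (h * wide m z (g * b * g⁻¹) * k) = _
      rw [e1, T0_conj (final_mono (by omega) le_rfl hg')])
    (by
      intro k₀ x y e hm hx hy
      obtain ⟨c, hc, hce⟩ := wide_letter (m := m) (z := z) hm e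
      have hle : strands (m + z) ≤ strands (k₀ + z + 1) := strands_mono (by omega)
      have hc' : c ∈ strands (k₀ + z + 1) := by
        rw [show k₀ + z + 1 = k₀ + 1 + z by omega]
        exact hc
      have hx' : wide m z x ∈ strands (k₀ + z + 1) := by
        rw [show k₀ + z + 1 = k₀ + 1 + z by omega]
        exact wide_mem hm hx
      have hy' : wide m z y ∈ strands (k₀ + z + 1) := by
        rw [show k₀ + z + 1 = k₀ + 1 + z by omega]
        exact wide_mem hm hy
      have e1 : h * wide m z (x * letter k₀ e * y) * k =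
          (h * wide m z x * c) * letter (k₀ + z) e * (c⁻¹ * wide m z y * k) := by
        rw [map_mul, map_mul, hce]
        simp only [mul_assoc]
      show T0 m (k₀ + 2 + z) (h * wide m z (x * letter k₀ e * y) * k) =
        T0 m (k₀ + 1 + z) (h * wide m z (x * y) * k)
      rw [e1, show k₀ + 2 + z = k₀ + z + 2 by omega, show k₀ + 1 + z = k₀ + z + 1 by omega,
        T0_stab (mul_mem (mul_mem (hle H.hh) hx') hc')
          (mul_mem (mul_mem (inv_mem hc') hy') (hle H.hk)) (by omega) e, map_mul]
      congr 1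
      group)
  refine ⟨φ, fun M hM x hx => ?_⟩
  induction hx using Submodule.span_induction with
  | mem x hx =>
    obtain ⟨b, hb, rfl⟩ := hx
    rw [ext_of, ← FreeAbelianGroup.of_mul, ← FreeAbelianGroup.of_mul, T_of, T_of]
    by_cases hs : Str m M (perm b)
    · exact hφ M b hb hs
    · rw [T0_neg (fun h' => hs h'.2), map_zero,
        T0_neg (fun h' => hs ((hole_str_iff H hM hb).1 h'.2))]
  | zero => simp
  | add x y _ _ hx hy => rw [map_add, map_add, hx, hy, map_add, mul_add, add_mul, map_add]
  | smul n x _ hx =>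
    rw [map_zsmul, map_zsmul, hx, map_zsmul, mul_smul_comm, smul_mul_assoc, map_zsmul]

/-- The operation `Y ↦ h (Y × 1) k`. -/
noncomputable def holeL {m z : ℕ} {h k : Braid} (H : Hole m z h k) : A m →ₗ[ℤ] A m :=
  (exists_hole H).choose

theorem holeL_T {m z : ℕ} {h k : Braid} (H : Hole m z h k) {M : ℕ} (hM : m ≤ M) {x : R}
    (hx : x ∈ U M) : holeL H (T m M x) = T m (M + z) (of h * ext (wide m z) x * of k) :=
  (exists_hole H).choose_spec M hM x hx

theorem holeL_T0 {m z : ℕ} {h k : Braid} (H : Hole m z h k) {M : ℕ} (hM : m ≤ M) {b : Braid}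
    (hb : b ∈ strands M) : holeL H (T0 m M b) = T0 m (M + z) (h * wide m z b * k) := by
  rw [← T_of, holeL_T H hM (of_mem_U hb), ext_of, ← FreeAbelianGroup.of_mul,
    ← FreeAbelianGroup.of_mul, T_of]

theorem exists_holeL_of {m z : ℕ} {h k : Braid} (H : Hole m z h k) (s : StringLink m) :
    ∃ s', holeL H (of s) = of s' := by
  obtain ⟨M, b, hb, hs, he⟩ := exists_rep s
  rw [← he, holeL_T0 H hs.1 hb]
  refine exists_of ?_ ((hole_str_iff H hs.1 hb).2 hs)
  have hle : strands (m + z) ≤ strands (M + z) := strands_mono (by have := hs.1; omega)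
  exact mul_mem (mul_mem (hle H.hh) (wide_mem hs.1 hb)) (hle H.hk)

/-- The operation `Y ↦ h (Y × 1) k` on string links. -/
noncomputable def holeS {m z : ℕ} {h k : Braid} (H : Hole m z h k) (s : StringLink m) :
    StringLink m := (exists_holeL_of H s).choose

theorem holeS_spec {m z : ℕ} {h k : Braid} (H : Hole m z h k) (s : StringLink m) :
    holeL H (of s) = of (holeS H s) := (exists_holeL_of H s).choose_spec

theorem holeL_mem {m z : ℕ} {h k : Braid} (H : Hole m z h k) {j : ℕ} {x : A m}
    (hx : x ∈ J m j) : holeL H x ∈ J m j := by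
  have h1 : J m j ≤ (J m j).comap (holeL H) := by
    rw [J_le_iff]
    intro M hM x hx
    rw [Submodule.mem_comap, holeL_T H hM (I_le_U M j hx)]
    have hle : strands (m + z) ≤ strands (M + z) := strands_mono (by omega)
    exact T_mem_J (I_mul_U (U_mul_I (of_mem_U (hle H.hh)) (ext_wide_mem hM hx))
      (of_mem_U (hle H.hk)))
  exact h1 hx

/-! ### The product -/

theorem exists_left {m M : ℕ} {b : Braid} (hb : b ∈ strands M) (hs : Str m M (perm b)) :
    ∃ φ : A m →ₗ[ℤ] A m, ∀ z, ∀ k ∈ strands (m + z),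
      φ (T0 m (m + z) k) = T0 m (M + z) (wide m z b * k) := by
  obtain ⟨φ, hφ⟩ := exists_lift (m := m)
    (fun M' k => T0 m (M + (M' - m)) (wide m (M' - m) b * k))
    (by
      intro M' g k hM' hg _
      obtain ⟨z, rfl⟩ : ∃ z, M' = m + z := ⟨M' - m, by omega⟩
      simp only [Nat.add_sub_cancel_left]
      have c1 : Commute g (wide m z b) := wide_commute hg b
      have e1 : wide m z b * (g * k * g⁻¹) = g * (wide m z b * k) * g⁻¹ := by
        calc wide m z b * (g * k * g⁻¹) = (wide m z b * g) * k * g⁻¹ := by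
              simp only [mul_assoc]
          _ = _ := by
              rw [← c1.eq]
              simp only [mul_assoc]
      rw [e1, T0_conj (final_mono le_rfl (by have := hs.1; omega) hg)])
    (by
      intro k₀ x y e hm hx hy
      obtain ⟨z, hz⟩ : ∃ z, k₀ + 1 = m + z := ⟨k₀ + 1 - m, by omega⟩
      have h1 : k₀ + 2 - m = z + 1 := by omega
      have h2 : k₀ + 1 - m = z := by omega
      have hmM := hs.1
      simp only [h1, h2]
      rw [hz] at hx hy
      have hle : strands (m + z) ≤ strands (M + z) := strands_mono (by omega)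
      have e1 : wide m (z + 1) b * (x * letter k₀ e * y) =
          ins (m + z) (wide m z b * x) * letter (m + z - 1) e * ins (m + z) y := by
        rw [wide_succ, map_mul, ins_of_strands hx, ins_of_strands hy,
          show m + z - 1 = k₀ by omega]
        simp only [mul_assoc]
      rw [e1, show M + (z + 1) = M + z + 1 by omega,
        T0_ins_stab (by omega) (by omega) (by omega) (mul_mem (wide_mem hs.1 hb) (hle hx))
          (hle hy) e, mul_assoc])
  refine ⟨φ, fun z k hk => ?_⟩
  by_cases hsk : Str m (m + z) (perm k)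
  · rw [hφ (m + z) k hk hsk]
    simp only [Nat.add_sub_cancel_left]
  · rw [T0_neg (fun h' => hsk h'.2), map_zero,
      T0_neg (fun h' => hsk ((left_str_iff hb hs hk).1 h'.2))]

theorem hole_right_aux {m z : ℕ} {k : Braid} (hk : k ∈ strands (m + z))
    (hs : Str m (m + z) (perm k)) : Hole m z 1 k where
  hh := one_mem _
  hk := hk
  str := by simpa using hs
  pass := by
    intro i _
    rw [one_mul]
    exact ⟨1, by rw [zpow_one, ← Perm.mul_apply, mul_inv_cancel, Perm.one_apply]⟩

theorem exists_mul {m : ℕ} (s t : StringLink m) : ∃ r : StringLink m, ∀ M b z k,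
    T0 m M b = of s → T0 m (m + z) k = of t → T0 m (M + z) (wide m z b * k) = of r := by
  obtain ⟨M₀, b₀, hb₀, hs₀, he₀⟩ := exists_rep s
  obtain ⟨N, k₀, hk₀, ht₀, hf₀⟩ := exists_rep t
  obtain ⟨z₀, rfl⟩ : ∃ z₀, N = m + z₀ := ⟨N - m, by have := ht₀.1; omega⟩
  have H := hole_right_aux hk₀ ht₀
  obtain ⟨r, hr⟩ := exists_holeL_of H s
  refine ⟨r, fun M b z k he hf => ?_⟩
  obtain ⟨hb, hs⟩ := T0_eq_of he
  obtain ⟨hk, ht⟩ := T0_eq_of hf
  obtain ⟨φ, hφ⟩ := exists_left hb hs
  rw [← hφ z k hk, hf, ← hf₀, hφ z₀ k₀ hk₀, ← hr, ← he, holeL_T0 H hs.1 hb, one_mul]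

/-- The product of string links (the second factor comes first). -/
noncomputable def mulS {m : ℕ} (s t : StringLink m) : StringLink m := (exists_mul s t).choose

theorem mulS_spec {m : ℕ} {s t : StringLink m} {M : ℕ} {b : Braid} {z : ℕ} {k : Braid}
    (hs : T0 m M b = of s) (ht : T0 m (m + z) k = of t) :
    T0 m (M + z) (wide m z b * k) = of (mulS s t) :=
  (exists_mul s t).choose_spec M b z k hs ht

theorem str_one (m : ℕ) : Str m m (perm 1) := by
  refine ⟨le_rfl, fun a _ => by rw [map_one]; rfl, fun a ha => ?_⟩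
  rw [map_one]
  refine ⟨a, ⟨ha, Perm.SameCycle.refl _ _⟩, ?_⟩
  rintro i ⟨_, n, hn⟩
  rw [one_zpow] at hn
  exact hn

theorem exists_oneS (m : ℕ) : ∃ s : StringLink m, T0 m m 1 = of s :=
  exists_of (one_mem _) (str_one m)

/-- The trivial string link. -/
noncomputable def oneS (m : ℕ) : StringLink m := (exists_oneS m).choose

theorem oneS_spec (m : ℕ) : T0 m m 1 = of (oneS m) := (exists_oneS m).choose_spec

theorem mulS_one {m : ℕ} (s : StringLink m) : mulS s (oneS m) = s := by
  obtain ⟨M, b, hb, hs, he⟩ := exists_rep s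
  have h1 := mulS_spec (z := 0) (k := 1) he (t := oneS m) (oneS_spec m)
  rw [wide_zero, mul_one] at h1
  exact FreeAbelianGroup.of_injective (h1.symm.trans he)

theorem one_mulS {m : ℕ} (s : StringLink m) : mulS (oneS m) s = s := by
  obtain ⟨M, b, hb, hs, he⟩ := exists_rep s
  obtain ⟨z, rfl⟩ : ∃ z, M = m + z := ⟨M - m, by have := hs.1; omega⟩
  have h1 := mulS_spec (oneS_spec m) he
  rw [map_one, one_mul] at h1
  exact FreeAbelianGroup.of_injective (h1.symm.trans he)

theorem mulS_assoc {m : ℕ} (s t r : StringLink m) : mulS (mulS s t) r = mulS s (mulS t r) := by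
  obtain ⟨M, b, hb, hs, he⟩ := exists_rep s
  obtain ⟨N, k, hk, ht, hf⟩ := exists_rep t
  obtain ⟨z, rfl⟩ : ∃ z, N = m + z := ⟨N - m, by have := ht.1; omega⟩
  obtain ⟨N', l, hl, hr, hg⟩ := exists_rep r
  obtain ⟨w, rfl⟩ : ∃ w, N' = m + w := ⟨N' - m, by have := hr.1; omega⟩
  have h1 := mulS_spec (mulS_spec he hf) hg
  have h2 := mulS_spec hf hg
  rw [show m + z + w = m + (w + z) by omega] at h2
  have h3 := mulS_spec he h2
  rw [map_mul, wide_wide, show M + z + w = M + (w + z) by omega, mul_assoc] at h1
  exact FreeAbelianGroup.of_injective (h1.symm.trans h3)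

noncomputable instance (m : ℕ) : Monoid (StringLink m) where
  mul := mulS
  one := oneS m
  mul_one := mulS_one
  one_mul := one_mulS
  mul_assoc := mulS_assoc

theorem mul_spec {m : ℕ} {s t : StringLink m} {M : ℕ} {b : Braid} {z : ℕ} {k : Braid}
    (hs : T0 m M b = of s) (ht : T0 m (m + z) k = of t) :
    T0 m (M + z) (wide m z b * k) = of (s * t) := mulS_spec hs ht

theorem one_spec (m : ℕ) : T0 m m 1 = of (1 : StringLink m) := oneS_spec m

theorem hole_right {m z : ℕ} {k : Braid} (hk : k ∈ strands (m + z))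
    (hs : Str m (m + z) (perm k)) : Hole m z 1 k where
  hh := one_mem _
  hk := hk
  str := by simpa using hs
  pass := by
    intro i _
    rw [one_mul]
    exact ⟨1, by rw [zpow_one, ← Perm.mul_apply, mul_inv_cancel, Perm.one_apply]⟩

theorem holeS_right {m z : ℕ} {k : Braid} (hk : k ∈ strands (m + z))
    (hs : Str m (m + z) (perm k)) {t : StringLink m} (ht : T0 m (m + z) k = of t)
    (s : StringLink m) : holeS (hole_right hk hs) s = s * t := by
  obtain ⟨M, b, hb, hsb, he⟩ := exists_rep s
  have h1 := mul_spec he ht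
  have h2 := holeL_T0 (hole_right hk hs) hsb.1 hb
  rw [he, holeS_spec, one_mul, h1] at h2
  exact FreeAbelianGroup.of_injective h2

theorem holeS_one {m z : ℕ} {h k : Braid} (H : Hole m z h k) :
    T0 m (m + z) (h * k) = of (holeS H 1) := by
  have h2 := holeL_T0 H le_rfl (one_mem (strands m))
  rw [one_spec, holeS_spec, map_one, mul_one] at h2
  exact h2.symm

/-! ### The closure -/

theorem ell_same {m : ℕ} (D : StringDiagram m) (a : Fin D.cl.M) :
    (perm D.cl.b).SameCycle (D.cl.ell a) a := by
  obtain ⟨hm, hbas⟩ := D.based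
  have := (D.cl.num.2 (Fin.castLE hm (D.cl.ell a)) a).1 (hbas _)
  exact this

theorem ell_eq {m : ℕ} (D : StringDiagram m) (a : Fin D.cl.M) (i : Fin m)
    (h : (perm D.cl.b).SameCycle i a) : D.cl.ell a = i := by
  obtain ⟨hm, hbas⟩ := D.based
  have := (D.cl.num.2 (Fin.castLE hm i) a).2 h
  rw [hbas] at this
  exact this.symm

/-- The closure of a string link. -/
def closure {m : ℕ} : StringLink m → Link m :=
  Quot.lift (fun D => Quot.mk _ D.cl) (by
    intro D E hDE
    apply Quot.sound
    cases hDE with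
    | conj g hg hM hb =>
      refine LinkMove.conj g (final_le _ _ hg) hM hb fun a c hac => ?_
      apply ell_eq
      have h1 := ell_same D a
      have h0 : (perm g)⁻¹ (perm g a) = a := by
        rw [← Perm.mul_apply, inv_mul_cancel, Perm.one_apply]
      rw [hb, map_mul, map_mul, map_inv, ← hac, Perm.sameCycle_conj, h0]
      have h2 : (perm g)⁻¹ ((D.cl.ell a : Fin m) : ℕ) = ((D.cl.ell a : Fin m) : ℕ) := by
        rw [Perm.inv_eq_iff_eq, perm_final hg (D.cl.ell a).2]
      rw [h2]
      exact h1
    | stab k x y e hx hy hD hE hb hb' =>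
      refine LinkMove.stab k x y e hx hy hD hE hb hb' fun a c hac => ?_
      apply ell_eq
      have h1 := ell_same D a
      have hm := (str_of D).1
      have hi := (D.cl.ell a).2
      have ha := a.2
      rw [hb, map_mul] at h1
      rw [hb', map_mul, map_mul, perm_letter, ← hac, sameCycle_stab
        (fun b hb => perm_of_le hx (by omega)) (fun b hb => perm_of_le hy (by omega))
        (by omega) (by omega)]
      exact h1)

theorem closure_mk {m : ℕ} (D : StringDiagram m) :
    closure (Quot.mk _ D : StringLink m) = Quot.mk _ D.cl := rfl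

/-- Conjugation which changes the base points of a link. -/
theorem closure_conj {m M : ℕ} {b g : Braid} (hb : b ∈ strands M) (hs : Str m M (perm b))
    (hg : g ∈ strands M) (hl : ∀ i < m, (perm b).SameCycle ((perm g)⁻¹ i) i)
    {s t : StringLink m} (h : T0 m M b = of s) (h' : T0 m M (g * b * g⁻¹) = of t) :
    closure s = closure t := by
  obtain ⟨hb', hs'⟩ := T0_eq_of h'
  rw [T0_pos hb hs] at h
  rw [T0_pos hb' hs'] at h'
  rw [← FreeAbelianGroup.of_injective h, ← FreeAbelianGroup.of_injective h', closure_mk,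
    closure_mk]
  apply Quot.sound
  refine LinkMove.conj g hg rfl rfl fun a c hac => ?_
  show lab hs' c = lab hs a
  apply lab_eq
  have h1 := lab_same hs a
  have h2 := hl _ (lab hs a).2
  have h0 : (perm g)⁻¹ (perm g a) = a := by
    rw [← Perm.mul_apply, inv_mul_cancel, Perm.one_apply]
  rw [map_mul, map_mul, map_inv, ← hac, Perm.sameCycle_conj, h0]
  exact h2.trans h1

theorem closure_hole {m z : ℕ} {h k : Braid} (H : Hole m z h k) (s : StringLink m)
    {t : StringLink m} (ht : T0 m (m + z) (k * h) = of t) :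
    closure (holeS H s) = closure (s * t) := by
  obtain ⟨M, b, hb, hs, he⟩ := exists_rep s
  have hle : strands (m + z) ≤ strands (M + z) := strands_mono (by have := hs.1; omega)
  have h1 := holeL_T0 H hs.1 hb
  rw [he, holeS_spec] at h1
  have h2 := mul_spec he ht
  have h3 : h⁻¹ * (h * wide m z b * k) * h⁻¹⁻¹ = wide m z b * (k * h) := by group
  rw [← h3] at h2
  refine closure_conj (mul_mem (mul_mem (hle H.hh) (wide_mem hs.1 hb)) (hle H.hk))
    ((hole_str_iff H hs.1 hb).2 hs) (inv_mem (hle H.hh)) (fun i hi => ?_) h1.symm h2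
  refine hole_same H b ?_
  rw [map_inv, inv_inv]
  have h4 : perm h i = perm (h * k) ((perm k)⁻¹ i) := by
    rw [map_mul, Perm.mul_apply, ← Perm.mul_apply, ← Perm.mul_apply, mul_assoc, mul_inv_cancel,
      mul_one]
  rw [h4, Perm.sameCycle_apply_left]
  exact H.pass i hi

end Pool.Agent.Helper399_SL
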