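import Pool.Agent.Helper399_SL.Lift
import Pool.Agent.Helper399_SL.Perm

/-!
# The group ring
-/

set_option autoImplicit false

namespace Pool.Agent.Helper399_SL

open Equiv
open FreeAbelianGroup (of)

/-! ### Auxiliary facts -/

theorem of_mul (a b : Braid) : (of a : R) * of b = of (a * b) := FreeAbelianGroup.of_mul_of a b

theorem of_one : (of (1 : Braid) : R) = 1 := rfl

/-- Induction for formal sums of braids. -/
theorem R_induction {p : R → Prop} (h0 : p 0) (h1 : ∀ b : Braid, p (of b))
    (hn : ∀ x, p x → p (-x)) (ha : ∀ x y, p x → p y → p (x + y)) (x : R) : p x :=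
  FreeAbelianGroup.induction_on x h0 h1 (fun _ hb => hn _ hb) ha

/-! ### Invariance under the moves -/

/-- The string link of a diagram. -/
def cls {m : ℕ} (X : StringDiagram m) : StringLink m := Quot.mk _ X

theorem cls_eq {m : ℕ} {X Y : StringDiagram m} (h : StringMove X Y) : cls X = cls Y :=
  Quot.sound h

theorem T0_cls {m M : ℕ} {b : Braid} (hb : b ∈ strands M) (hs : Str m M (perm b)) :
    T0 m M b = of (cls (sd b hb hs)) := T0_pos hb hs

theorem T0_conj_aux {m M : ℕ} {g : Braid} (hg : g ∈ final m M) {b : Braid} (hb : b ∈ strands M)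
    (hs : Str m M (perm b)) : T0 m M (g * b * g⁻¹) = T0 m M b := by
  have hg' : g ∈ strands M := final_le m M hg
  have hb' : g * b * g⁻¹ ∈ strands M := mul_mem (mul_mem hg' hb) (inv_mem hg')
  have hs' : Str m M (perm (g * b * g⁻¹)) := by
    rw [map_mul, map_mul, map_inv]
    exact hs.conj (fun a ha => perm_of_le hg' ha) (fun a ha => perm_final hg ha)
  rw [T0_cls hb' hs', T0_cls hb hs]
  have hmove : StringMove (sd b hb hs) (sd (g * b * g⁻¹) hb' hs') :=
    StringMove.conj g hg rfl rfl
  exact congrArg of (cls_eq hmove).symm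

theorem T0_conj {m M : ℕ} {g : Braid} (hg : g ∈ final m M) (b : Braid) :
    T0 m M (g * b * g⁻¹) = T0 m M b := by
  by_cases h : b ∈ strands M ∧ Str m M (perm b)
  · exact T0_conj_aux hg h.1 h.2
  · by_cases h' : g * b * g⁻¹ ∈ strands M ∧ Str m M (perm (g * b * g⁻¹))
    · have := T0_conj_aux (inv_mem hg) h'.1 h'.2
      rw [← this]
      congr 1
      group
    · rw [T0_neg h, T0_neg h']

theorem T0_stab {m k : ℕ} {x y : Braid} (hx : x ∈ strands (k + 1)) (hy : y ∈ strands (k + 1))
    (hm : m ≤ k + 1) (e : Bool) : T0 m (k + 2) (x * letter k e * y) = T0 m (k + 1) (x * y) := by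
  have h1 : x * y ∈ strands (k + 1) := mul_mem hx hy
  have h2 : x * letter k e * y ∈ strands (k + 2) :=
    mul_mem (mul_mem (strands_mono (by omega) hx) (letter_mem_strands (by omega) e))
      (strands_mono (by omega) hy)
  have hiff : Str m (k + 2) (perm (x * letter k e * y)) ↔ Str m (k + 1) (perm (x * y)) := by
    rw [map_mul, map_mul, perm_letter, map_mul]
    exact str_stab (fun a ha => perm_of_le hx (by omega)) (fun a ha => perm_of_le hy (by omega)) hm
  by_cases h : Str m (k + 1) (perm (x * y))
  · rw [T0_cls h1 h, T0_cls h2 (hiff.2 h)]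
    have hmove : StringMove (sd (x * y) h1 h) (sd (x * letter k e * y) h2 (hiff.2 h)) :=
      StringMove.stab k x y e hx hy rfl rfl rfl rfl
    exact congrArg of (cls_eq hmove).symm
  · rw [T0_neg (fun h' => h h'.2), T0_neg (fun h' => h (hiff.1 h'.2))]

/-- A function of braids which is invariant under the moves descends to string links. -/
theorem exists_lift {m : ℕ} {B : Type*} [AddCommGroup B] (f : ℕ → Braid → B)
    (hconj : ∀ M g b, m ≤ M → g ∈ final m M → b ∈ strands M → f M (g * b * g⁻¹) = f M b)
    (hstab : ∀ k x y e, m ≤ k + 1 → x ∈ strands (k + 1) → y ∈ strands (k + 1) →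
      f (k + 2) (x * letter k e * y) = f (k + 1) (x * y)) :
    ∃ φ : A m →ₗ[ℤ] B, ∀ M b, b ∈ strands M → Str m M (perm b) → φ (T0 m M b) = f M b := by
  have key : ∀ D E : StringDiagram m, StringMove D E → f D.cl.M D.cl.b = f E.cl.M E.cl.b := by
    rintro D E (⟨g, hg, hM, hb⟩ | ⟨k, x, y, e, hx, hy, hD, hE, hb, hb'⟩)
    · rw [hM, hb]
      exact (hconj _ g _ D.based.1 hg D.cl.mem).symm
    · rw [hD, hE, hb, hb']
      have hm := D.based.1
      exact (hstab k x y e (by omega) hx hy).symm
  let F : StringLink m → B := Quot.lift (fun D : StringDiagram m => f D.cl.M D.cl.b) key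
  refine ⟨(FreeAbelianGroup.lift F).toIntLinearMap, fun M b hb hs => ?_⟩
  rw [T0_cls hb hs]
  simp only [AddMonoidHom.coe_toIntLinearMap, FreeAbelianGroup.lift_apply_of]
  rfl

theorem T_of' (m M : ℕ) (b : Braid) : T m M (of b) = T0 m M b := T_of m M b

theorem T_conj {m M : ℕ} {g : Braid} (hg : g ∈ final m M) (x : R) :
    T m M (of g * x * of g⁻¹) = T m M x := by
  induction x using R_induction with
  | h0 => simp
  | h1 b => rw [of_mul, of_mul, T_of, T_of, T0_conj hg]
  | hn x hx => rw [mul_neg, neg_mul, map_neg, map_neg, hx]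
  | ha x y hx hy => rw [mul_add, add_mul, map_add, map_add, hx, hy]

/-! ### The filtration -/

theorem of_mem_U {M : ℕ} {b : Braid} (hb : b ∈ strands M) : of b ∈ U M :=
  Submodule.subset_span ⟨b, hb, rfl⟩

theorem one_mem_U (M : ℕ) : (1 : R) ∈ U M := of_mem_U (one_mem _)

theorem U_mul (M : ℕ) : U M * U M = U M := by
  apply le_antisymm
  · rw [U, Submodule.span_mul_span]
    refine Submodule.span_mono ?_
    rintro _ ⟨_, ⟨a, ha, rfl⟩, _, ⟨b, hb, rfl⟩, rfl⟩
    exact ⟨a * b, mul_mem ha hb, of_mul a b⟩
  · intro x hx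
    have := Submodule.mul_mem_mul (one_mem_U M) hx
    rwa [one_mul] at this

theorem mul_mem_U {M : ℕ} {x y : R} (hx : x ∈ U M) (hy : y ∈ U M) : x * y ∈ U M := by
  rw [← U_mul]
  exact Submodule.mul_mem_mul hx hy

theorem U_mono {M M' : ℕ} (h : M ≤ M') : U M ≤ U M' := by
  refine Submodule.span_mono ?_
  rintro _ ⟨b, hb, rfl⟩
  exact ⟨b, strands_mono h hb, rfl⟩

theorem T_stab {m k : ℕ} {x y : R} (hx : x ∈ U (k + 1)) (hy : y ∈ U (k + 1)) (hm : m ≤ k + 1)
    (e : Bool) : T m (k + 2) (x * of (letter k e) * y) = T m (k + 1) (x * y) := by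
  induction hx using Submodule.span_induction with
  | zero => simp
  | add a b _ _ ha hb => rw [add_mul, add_mul, add_mul, map_add, map_add, ha, hb]
  | smul c a _ ha => rw [smul_mul_assoc, smul_mul_assoc, smul_mul_assoc, map_smul, map_smul, ha]
  | mem a ha =>
    obtain ⟨a, ha, rfl⟩ := ha
    induction hy using Submodule.span_induction with
    | zero => simp
    | add u v _ _ hu hv => rw [mul_add, mul_add, map_add, map_add, hu, hv]
    | smul c u _ hu => rw [mul_smul_comm, mul_smul_comm, map_smul, map_smul, hu]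
    | mem u hu =>
      obtain ⟨u, hu, rfl⟩ := hu
      rw [of_mul, of_mul, of_mul, T_of, T_of, T0_stab ha hu hm e]

theorem D_le_U (M : ℕ) : D M ≤ U M := by
  refine Submodule.span_le.2 ?_
  rintro _ ⟨i, hi, rfl⟩
  exact sub_mem (of_mem_U (sig_mem_strands hi)) (of_mem_U (inv_mem (sig_mem_strands hi)))

theorem D_mono {M M' : ℕ} (h : M ≤ M') : D M ≤ D M' := by
  refine Submodule.span_mono ?_
  rintro _ ⟨i, hi, rfl⟩
  exact ⟨i, by omega, rfl⟩

theorem U_mul_I_eq (M j : ℕ) : U M * I M j = I M j := by
  cases j with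
  | zero => exact U_mul M
  | succ j => rw [I, ← mul_assoc, ← mul_assoc, U_mul]

theorem I_mul (M i j : ℕ) : I M i * I M j = I M (i + j) := by
  induction i with
  | zero => rw [zero_add]; exact U_mul_I_eq M j
  | succ i ih =>
    rw [show i + 1 + j = (i + j) + 1 by omega, I, I, mul_assoc, ih]

theorem mul_mem_I {M i j : ℕ} {x y : R} (hx : x ∈ I M i) (hy : y ∈ I M j) :
    x * y ∈ I M (i + j) := by
  rw [← I_mul]
  exact Submodule.mul_mem_mul hx hy

theorem I_succ_le (M j : ℕ) : I M (j + 1) ≤ I M j := by
  have h1 : U M * D M ≤ U M := by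
    calc U M * D M ≤ U M * U M := mul_le_mul' le_rfl (D_le_U M)
      _ = U M := U_mul M
  calc I M (j + 1) = U M * D M * I M j := rfl
    _ ≤ U M * I M j := mul_le_mul' h1 le_rfl
    _ = I M j := U_mul_I_eq M j

theorem I_anti (M : ℕ) {i j : ℕ} (h : i ≤ j) : I M j ≤ I M i := by
  induction h with
  | refl => exact le_rfl
  | step _ ih => exact (I_succ_le M _).trans ih

theorem I_le_U (M j : ℕ) : I M j ≤ U M := I_anti M (Nat.zero_le j)

theorem I_mono {M M' : ℕ} (h : M ≤ M') (j : ℕ) : I M j ≤ I M' j := by
  induction j with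
  | zero => exact U_mono h
  | succ j ih =>
    exact mul_le_mul' (mul_le_mul' (U_mono h) (D_mono h)) ih

theorem U_mul_I {M j : ℕ} {x y : R} (hx : x ∈ U M) (hy : y ∈ I M j) : x * y ∈ I M j := by
  have := mul_mem_I (i := 0) (j := j) hx hy
  rwa [zero_add] at this

theorem I_mul_U {M j : ℕ} {x y : R} (hx : x ∈ I M j) (hy : y ∈ U M) : x * y ∈ I M j :=
  mul_mem_I (i := j) (j := 0) hx hy

theorem sub_mem_I {M i : ℕ} (h : i + 1 < M) : of (sig i) - of (sig i)⁻¹ ∈ I M 1 := by
  have h1 : (of (sig i) - of (sig i)⁻¹ : R) ∈ D M := Submodule.subset_span ⟨i, h, rfl⟩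
  have h2 := Submodule.mul_mem_mul (Submodule.mul_mem_mul (one_mem_U M) h1) (one_mem_U M)
  rwa [one_mul, mul_one] at h2

theorem ext_wide_U {m z M : ℕ} (hm : m ≤ M) {x : R} (hx : x ∈ U M) :
    ext (wide m z) x ∈ U (M + z) := by
  induction hx using Submodule.span_induction with
  | zero => rw [map_zero]; exact zero_mem _
  | add a b _ _ ha hb => rw [map_add]; exact add_mem ha hb
  | smul c a _ ha => rw [map_zsmul]; exact Submodule.smul_mem _ c ha
  | mem a ha =>
    obtain ⟨a, ha, rfl⟩ := ha
    rw [ext_of]
    exact of_mem_U (wide_mem hm ha)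

theorem ext_wide_D {m z M : ℕ} (hm : m ≤ M) {x : R} (hx : x ∈ D M) :
    ext (wide m z) x ∈ I (M + z) 1 := by
  induction hx using Submodule.span_induction with
  | zero => rw [map_zero]; exact zero_mem _
  | add a b _ _ ha hb => rw [map_add]; exact add_mem ha hb
  | smul c a _ ha => rw [map_zsmul]; exact Submodule.smul_mem _ c ha
  | mem a ha =>
    obtain ⟨i, hi, rfl⟩ := ha
    rw [map_sub, ext_of, ext_of, map_inv]
    by_cases h : i + 1 < m
    · rw [wide_strands (sig_mem_strands h)]
      exact sub_mem_I (by omega)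
    · obtain ⟨c, hc, hw⟩ := wide_letter (m := m) (z := z) (k := i) (by omega) true
      rw [letter_true, letter_true] at hw
      have hc' : c ∈ strands (M + z) := strands_mono (by omega) hc
      have h1 : (of (wide m z (sig i)) - of (wide m z (sig i))⁻¹ : R) =
          of c * (of (sig (i + z)) - of (sig (i + z))⁻¹) * of c⁻¹ := by
        rw [mul_sub, sub_mul, of_mul, of_mul, of_mul, of_mul, hw]
        congr 2
        group
      rw [h1]
      exact I_mul_U (U_mul_I (of_mem_U hc') (sub_mem_I (by omega))) (of_mem_U (inv_mem hc'))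

theorem ext_wide_mem {m z M j : ℕ} (hm : m ≤ M) {x : R} (hx : x ∈ I M j) :
    ext (wide m z) x ∈ I (M + z) j := by
  induction j generalizing x with
  | zero => exact ext_wide_U hm hx
  | succ j ih =>
    rw [I] at hx
    induction hx using Submodule.mul_induction_on' with
    | add a _ b _ ha hb => rw [map_add]; exact add_mem ha hb
    | mem_mul_mem a ha b hb =>
      rw [map_mul]
      have h1 : ext (wide m z) a ∈ I (M + z) 1 := by
        induction ha using Submodule.mul_induction_on' with
        | add u _ v _ hu hv => rw [map_add]; exact add_mem hu hv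
        | mem_mul_mem u hu v hv =>
          rw [map_mul]
          exact U_mul_I (ext_wide_U hm hu) (ext_wide_D hm hv)
      have := mul_mem_I h1 (ih hb)
      rwa [add_comm 1 j] at this

/-- The element of the group ring which belongs to a word. -/
def elt : SWord → R
  | [] => 1
  | (i, some e) :: S => of (letter i e) * elt S
  | (i, none) :: S => (of (sig i) - of (sig i)⁻¹) * elt S

theorem lift_mul_left {B : Type*} [AddCommGroup B] (f : Braid → B) (a : Braid) (x : R) :
    FreeAbelianGroup.lift (fun b => f (a * b)) x = FreeAbelianGroup.lift f (of a * x) := by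
  induction x using R_induction with
  | h0 => simp
  | h1 b => rw [of_mul, FreeAbelianGroup.lift_apply_of, FreeAbelianGroup.lift_apply_of]
  | hn x hx => rw [mul_neg, map_neg, map_neg, hx]
  | ha x y hx hy => rw [mul_add, map_add, map_add, hx, hy]

theorem extend_eq {B : Type*} [AddCommGroup B] (f : Braid → B) (S : SWord) :
    extend f S = FreeAbelianGroup.lift f (elt S) := by
  induction S generalizing f with
  | nil =>
    rw [extend, elt, ← of_one, FreeAbelianGroup.lift_apply_of]
  | cons l S ih =>
    obtain ⟨i, e⟩ := l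
    cases e with
    | none =>
      rw [extend, elt, ih, ih, lift_mul_left, lift_mul_left, sub_mul, map_sub]
      rfl
    | some e => rw [extend, elt, ih, lift_mul_left]

theorem elt_append (S S' : SWord) : elt (S ++ S') = elt S * elt S' := by
  induction S with
  | nil => rw [List.nil_append, elt, one_mul]
  | cons l S ih =>
    obtain ⟨i, e⟩ := l
    cases e with
    | none => rw [List.cons_append, elt, elt, ih, mul_assoc]
    | some e => rw [List.cons_append, elt, elt, ih, mul_assoc]

theorem doublePoints_nil : doublePoints [] = 0 := rfl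

theorem doublePoints_some (i : ℕ) (e : Bool) (S : SWord) :
    doublePoints ((i, some e) :: S) = doublePoints S := by
  simp [doublePoints]

theorem doublePoints_none (i : ℕ) (S : SWord) :
    doublePoints ((i, none) :: S) = doublePoints S + 1 := by
  simp [doublePoints]

theorem doublePoints_append (S S' : SWord) :
    doublePoints (S ++ S') = doublePoints S + doublePoints S' := by
  simp [doublePoints, List.countP_append]

theorem fits_cons {M : ℕ} {l : ℕ × Option Bool} {S : SWord} (h : SWord.Fits M (l :: S)) :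
    l.1 + 1 < M ∧ S.Fits M :=
  ⟨h l List.mem_cons_self, fun k hk => h k (List.mem_cons_of_mem _ hk)⟩

theorem elt_mem {M : ℕ} {S : SWord} (h : S.Fits M) : elt S ∈ I M (doublePoints S) := by
  induction S with
  | nil => exact one_mem_U M
  | cons l S ih =>
    obtain ⟨i, e⟩ := l
    obtain ⟨hi, hS⟩ := fits_cons h
    cases e with
    | none =>
      rw [elt, doublePoints_none, add_comm]
      exact mul_mem_I (sub_mem_I hi) (ih hS)
    | some e =>
      rw [elt, doublePoints_some]
      exact U_mul_I (of_mem_U (letter_mem_strands hi e)) (ih hS)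

theorem fits_append {M : ℕ} {S S' : SWord} (h : S.Fits M) (h' : S'.Fits M) :
    SWord.Fits M (S ++ S') := by
  intro k hk
  rcases List.mem_append.1 hk with hk | hk
  · exact h k hk
  · exact h' k hk

/-- Every braid with `M` strands is a word. -/
theorem exists_word {M : ℕ} {b : Braid} (hb : b ∈ strands M) :
    ∃ S : SWord, S.Fits M ∧ doublePoints S = 0 ∧ of b = elt S := by
  have hl : ∀ i e, i + 1 < M →
      ∃ S : SWord, S.Fits M ∧ doublePoints S = 0 ∧ of (letter i e) = elt S := by
    intro i e hi
    refine ⟨[(i, some e)], ?_, ?_, ?_⟩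
    · intro k hk
      rw [List.mem_singleton] at hk
      rw [hk]
      exact hi
    · rw [doublePoints_some, doublePoints_nil]
    · rw [elt, elt, mul_one]
  have key : (∃ S : SWord, S.Fits M ∧ doublePoints S = 0 ∧ of b = elt S) ∧
      ∃ S : SWord, S.Fits M ∧ doublePoints S = 0 ∧ of b⁻¹ = elt S := by
    induction hb using Subgroup.closure_induction with
    | mem x hx =>
      obtain ⟨i, hi, rfl⟩ := hx
      exact ⟨hl i true hi, hl i false hi⟩
    | one =>
      rw [inv_one]
      exact ⟨⟨[], by intro k hk; simp at hk, rfl, rfl⟩, ⟨[], by intro k hk; simp at hk, rfl, rfl⟩⟩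
    | mul x y _ _ hx hy =>
      obtain ⟨⟨S, hS, hd, he⟩, ⟨S', hS', hd', he'⟩⟩ := hx
      obtain ⟨⟨Z, hZ, hdZ, heZ⟩, ⟨Z', hZ', hdZ', heZ'⟩⟩ := hy
      refine ⟨⟨S ++ Z, fits_append hS hZ, ?_, ?_⟩, ⟨Z' ++ S', fits_append hZ' hS', ?_, ?_⟩⟩
      · rw [doublePoints_append, hd, hdZ]
      · rw [elt_append, ← he, ← heZ, of_mul]
      · rw [doublePoints_append, hd', hdZ']
      · rw [elt_append, ← he', ← heZ', of_mul, mul_inv_rev]
    | inv x _ hx =>
      rw [inv_inv]
      exact ⟨hx.2, hx.1⟩
  exact key.1

theorem U_le_span (M : ℕ) :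
    U M ≤ Submodule.span ℤ {x | ∃ S : SWord, S.Fits M ∧ doublePoints S = 0 ∧ x = elt S} := by
  refine Submodule.span_le.2 ?_
  rintro _ ⟨b, hb, rfl⟩
  obtain ⟨S, hS, hd, he⟩ := exists_word hb
  exact Submodule.subset_span ⟨S, hS, hd, he⟩

theorem I_eq_span (M j : ℕ) :
    I M j = Submodule.span ℤ {x | ∃ S : SWord, S.Fits M ∧ doublePoints S = j ∧ x = elt S} := by
  apply le_antisymm
  · induction j with
    | zero => exact U_le_span M
    | succ j ih =>
      have h1 := mul_le_mul' (mul_le_mul' (U_le_span M) (le_refl (D M))) ih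
      refine h1.trans ?_
      rw [D, Submodule.span_mul_span, Submodule.span_mul_span]
      refine Submodule.span_mono ?_
      rintro _ ⟨_, ⟨_, ⟨S, hS, hd, rfl⟩, _, ⟨i, hi, rfl⟩, rfl⟩, _, ⟨S', hS', hd', rfl⟩, rfl⟩
      refine ⟨S ++ ((i, none) :: S'), ?_, ?_, ?_⟩
      · refine fits_append hS ?_
        intro k hk
        rcases List.mem_cons.1 hk with rfl | hk
        · exact hi
        · exact hS' k hk
      · rw [doublePoints_append, doublePoints_none, hd, hd', zero_add]
      · rw [elt_append, elt]
        simp only [mul_assoc]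
  · refine Submodule.span_le.2 ?_
    rintro _ ⟨S, hS, hd, rfl⟩
    rw [← hd]
    exact elt_mem hS

/-- The permutation of a word. -/
def permS : SWord → Perm ℕ
  | [] => 1
  | (i, _) :: S => Equiv.swap i (i + 1) * permS S

theorem extend_congr {B : Type*} [AddCommGroup B] {f g : Braid → B} {M : ℕ} {S : SWord}
    (h : S.Fits M) (hfg : ∀ b ∈ strands M, perm b = permS S → f b = g b) :
    extend f S = extend g S := by
  induction S generalizing f g with
  | nil => exact hfg 1 (one_mem _) (by rw [map_one]; rfl)
  | cons l S ih =>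
    obtain ⟨i, e⟩ := l
    obtain ⟨hi, hS⟩ := fits_cons h
    have key : ∀ e' : Bool, extend (fun b => f (letter i e' * b)) S =
        extend (fun b => g (letter i e' * b)) S := by
      intro e'
      refine ih hS fun b hb hp => ?_
      refine hfg _ (mul_mem (letter_mem_strands hi e') hb) ?_
      rw [map_mul, perm_letter, hp]
      rfl
    cases e with
    | none => rw [extend, extend, key, key]
    | some e => rw [extend, extend, key]

/-! ### The filtration of the string links -/

theorem T_mem_J {m M j : ℕ} {x : R} (hx : x ∈ I M j) : T m M x ∈ J m j :=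
  Submodule.mem_iSup_of_mem M (Submodule.mem_map_of_mem hx)

theorem T_eq_zero {m M : ℕ} (h : M < m) : T m M = 0 := by
  ext x
  rw [LinearMap.zero_apply]
  induction x using R_induction with
  | h0 => simp
  | h1 b => rw [T_of, T0_neg]; exact fun h' => absurd h'.2.1 (by omega)
  | hn x hx => rw [map_neg, hx, neg_zero]
  | ha x y hx hy => rw [map_add, hx, hy, add_zero]

theorem J_le_iff {m j : ℕ} {W : Submodule ℤ (A m)} :
    J m j ≤ W ↔ ∀ M, m ≤ M → ∀ x ∈ I M j, T m M x ∈ W := by
  constructor
  · intro h M _ x hx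
    exact h (T_mem_J hx)
  · intro h
    refine iSup_le fun M => ?_
    rintro _ ⟨x, hx, rfl⟩
    rcases Nat.lt_or_ge M m with hM | hM
    · rw [T_eq_zero hM]
      exact zero_mem _
    · exact h M hM x hx

theorem J_zero (m : ℕ) : J m 0 = ⊤ := by
  rw [eq_top_iff]
  intro x _
  refine FreeAbelianGroup.induction_on (motive := fun x => x ∈ J m 0) x (zero_mem _) (fun s => ?_)
    (fun s hs => neg_mem hs) (fun x y hx hy => add_mem hx hy)
  obtain ⟨M, b, hb, _, h⟩ := exists_rep s
  rw [← h, ← T_of]
  exact T_mem_J (of_mem_U hb)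

theorem J_anti (m : ℕ) {i j : ℕ} (h : i ≤ j) : J m j ≤ J m i :=
  iSup_mono fun M => Submodule.map_mono (I_anti M h)

theorem lift_T {m M : ℕ} {B : Type*} [AddCommGroup B] (v : StringLink m → B) (x : R) :
    FreeAbelianGroup.lift v (T m M x) =
      FreeAbelianGroup.lift (fun b => FreeAbelianGroup.lift v (T0 m M b)) x := by
  induction x using R_induction with
  | h0 => simp
  | h1 b => rw [T_of, FreeAbelianGroup.lift_apply_of]
  | hn x hx => rw [map_neg, map_neg, map_neg, hx]
  | ha x y hx hy => rw [map_add, map_add, map_add, hx, hy]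

theorem stringValue_lab {m M : ℕ} {B : Type*} [AddCommGroup B] (v : StringLink m → B)
    {w : Perm ℕ} (hs : Str m M w) {b : Braid} (hb : b ∈ strands M) (h : perm b = w) :
    FreeAbelianGroup.lift v (T0 m M b) = stringValue v M (lab hs) b := by
  subst h
  rw [T0_cls hb hs, FreeAbelianGroup.lift_apply_of, stringValue,
    dif_pos ⟨⟨hb, (sd b hb hs).cl.num⟩, (sd b hb hs).based⟩]
  rfl

/-- An invariant of type `n` vanishes on `J m (n + 1)`. -/
theorem lift_eq_zero {m n : ℕ} {B : Type*} [AddCommGroup B] {v : StringLink m → B}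
    (hv : StringType n v) {x : A m} (hx : x ∈ J m (n + 1)) : FreeAbelianGroup.lift v x = 0 := by
  have key : J m (n + 1) ≤ LinearMap.ker (FreeAbelianGroup.lift v).toIntLinearMap := by
    rw [J_le_iff]
    intro M _ x hx
    rw [I_eq_span] at hx
    induction hx using Submodule.span_induction with
    | zero => rw [map_zero]; exact zero_mem _
    | add a b _ _ ha hb => rw [map_add]; exact add_mem ha hb
    | smul c a _ ha => rw [map_smul]; exact Submodule.smul_mem _ c ha
    | mem a ha =>
      obtain ⟨S, hS, hd, rfl⟩ := ha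
      rw [LinearMap.mem_ker, AddMonoidHom.coe_toIntLinearMap, lift_T, ← extend_eq]
      by_cases hs : Str m M (permS S)
      · rw [extend_congr (g := stringValue v M (lab hs)) hS
          (fun b hb hp => stringValue_lab v hs hb hp)]
        exact hv M (lab hs) S hS hd
      · rw [extend_congr (g := fun _ => 0) hS, extend_eq]
        · generalize elt S = y
          induction y using R_induction with
          | h0 => simp
          | h1 b => rw [FreeAbelianGroup.lift_apply_of]
          | hn x hx => rw [map_neg, hx, neg_zero]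
          | ha x y hx hy => rw [map_add, hx, hy, add_zero]
        · intro b _ hp
          rw [T0_neg, map_zero]
          rintro ⟨_, h⟩
          rw [hp] at h
          exact hs h
  have := key hx
  rwa [LinearMap.mem_ker, AddMonoidHom.coe_toIntLinearMap] at this

theorem notSeparated_of {m n : ℕ} {s t : StringLink m} (h : uni m n s = uni m n t) :
    NotSeparated n s t := by
  intro B _ v hv
  have h1 : (of s - of t : A m) ∈ J m (n + 1) := (Submodule.Quotient.eq _).1 h
  have h2 := lift_eq_zero hv h1
  rw [map_sub, FreeAbelianGroup.lift_apply_of, FreeAbelianGroup.lift_apply_of, sub_eq_zero] at h2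
  exact h2

end Pool.Agent.Helper399_SL
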