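import Pool.Agent.Helper399_SL.Hole

/-!
# Unipotency of the operations
-/

set_option autoImplicit false

namespace Pool.Agent.Helper399_SL

open Equiv
open FreeAbelianGroup (of)

/-! ### Auxiliary facts -/

theorem unip_inv_apply (w : Perm ℕ) (a : ℕ) : w⁻¹ (w a) = a := by
  rw [← Perm.mul_apply, inv_mul_cancel, Perm.one_apply]

theorem unip_apply_inv (w : Perm ℕ) (a : ℕ) : w (w⁻¹ a) = a := by
  rw [← Perm.mul_apply, mul_inv_cancel, Perm.one_apply]

theorem unip_perm_inv {m M : ℕ} {b : Braid} (hb : b ∈ final m M) {a : ℕ} (ha : a < m) :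
    (perm b)⁻¹ a = a := by
  rw [Perm.inv_eq_iff_eq, perm_final hb ha]

theorem unip_inv_lt {M : ℕ} {b : Braid} (hb : b ∈ strands M) {a : ℕ} (ha : a < M) :
    (perm b)⁻¹ a < M := by
  rw [← map_inv]
  exact perm_lt (inv_mem hb) ha

theorem unip_inv_le {M : ℕ} {b : Braid} (hb : b ∈ strands M) {a : ℕ} (ha : M ≤ a) :
    (perm b)⁻¹ a = a := by
  rw [← map_inv]
  exact perm_of_le (inv_mem hb) ha

theorem unip_ext_id (y : R) : ext (MonoidHom.id Braid) y = y := by
  induction y using FreeAbelianGroup.induction_on with
  | zero => simp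
  | of x => simp
  | neg x _ => simp
  | add x y hx hy => rw [map_add, hx, hy]

theorem unip_ext_comm {m z : ℕ} {f : Braid} (hf : f ∈ final m (m + z)) (y : R) :
    ext (wide m z) y * of f = of f * ext (wide m z) y := by
  induction y using FreeAbelianGroup.induction_on with
  | zero => simp
  | of x =>
    rw [ext_of, ← FreeAbelianGroup.of_mul, ← FreeAbelianGroup.of_mul, (wide_commute hf x).eq]
  | neg x hx =>
    rw [ext_of, ← FreeAbelianGroup.of_mul, ← FreeAbelianGroup.of_mul] at hx
    rw [map_neg, ext_of, neg_mul, mul_neg, ← FreeAbelianGroup.of_mul, ← FreeAbelianGroup.of_mul, hx]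
  | add x y hx hy => rw [map_add, add_mul, mul_add, hx, hy]

theorem Hole.move {m z : ℕ} {h k f g : Braid} (H : Hole m z h k) (hf : f ∈ final m (m + z))
    (hg : g ∈ final m (m + z)) : Hole m z (g * h * f⁻¹) (f * k * g⁻¹) where
  hh := mul_mem (mul_mem (final_le _ _ hg) H.hh) (inv_mem (final_le _ _ hf))
  hk := mul_mem (mul_mem (final_le _ _ hf) H.hk) (inv_mem (final_le _ _ hg))
  str := by
    have e : g * h * f⁻¹ * (f * k * g⁻¹) = g * (h * k) * g⁻¹ := by group
    rw [e, map_mul, map_mul perm g, map_inv]
    exact H.str.conj (fun a ha => perm_of_le (final_le _ _ hg) ha) (fun a ha => perm_final hg ha)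
  pass := by
    intro i hi
    have e : g * h * f⁻¹ * (f * k * g⁻¹) = g * (h * k) * g⁻¹ := by group
    rw [e, map_mul, map_mul perm g, map_inv, Perm.sameCycle_conj, unip_perm_inv hg hi]
    have e2 : (perm g)⁻¹ ((perm (f * k * g⁻¹))⁻¹ i) = (perm k)⁻¹ i := by
      rw [map_mul, map_mul, map_inv, mul_inv_rev, mul_inv_rev, inv_inv, Perm.mul_apply,
        Perm.mul_apply, unip_perm_inv hf hi, ← Perm.mul_apply, inv_mul_cancel, Perm.one_apply]
    rw [e2]
    exact H.pass i hi

theorem unip_move {m z : ℕ} {f g : Braid} (h k : Braid) (hf : f ∈ final m (m + z))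
    (hg : g ∈ final m (m + z)) {M : ℕ} (hM : m ≤ M) (y : R) :
    T m (M + z) (of (g * h * f⁻¹) * ext (wide m z) y * of (f * k * g⁻¹)) =
      T m (M + z) (of h * ext (wide m z) y * of k) := by
  have hg' : g ∈ final m (M + z) := final_mono le_rfl (by omega) hg
  rw [← T_conj hg' (of h * ext (wide m z) y * of k)]
  congr 1
  have e : (of f⁻¹ : R) * ext (wide m z) y * of f = ext (wide m z) y := by
    rw [mul_assoc, unip_ext_comm hf, ← mul_assoc, ← FreeAbelianGroup.of_mul, inv_mul_cancel,
      FreeAbelianGroup.of_one, one_mul]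
  simp only [FreeAbelianGroup.of_mul]
  calc of g * of h * of f⁻¹ * ext (wide m z) y * (of f * of k * of g⁻¹)
      = of g * of h * (of f⁻¹ * ext (wide m z) y * of f) * of k * of g⁻¹ := by
        simp only [mul_assoc]
    _ = _ := by
        rw [e]
        simp only [mul_assoc]

theorem unip_replace {m z M j : ℕ} (hM : m ≤ M) {h h' k k' : Braid} (hh : h ∈ strands (m + z))
    (hh' : h' ∈ strands (m + z)) (hk : k ∈ strands (m + z)) (hk' : k' ∈ strands (m + z))
    (e : perm h = perm h') (e' : perm k = perm k') {y : R} (hy : y ∈ I M j) :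
    T m (M + z) (of h * ext (wide m z) y * of k) -
      T m (M + z) (of h' * ext (wide m z) y * of k') ∈ J m (j + 1) := by
  have hle : m + z ≤ M + z := by omega
  have hY : ext (wide m z) y ∈ I (M + z) j := ext_wide_mem hM hy
  have h1 : of h - of h' ∈ I (M + z) 1 := I_mono hle 1 (of_sub_mem hh hh' e)
  have h2 : of k - of k' ∈ I (M + z) 1 := I_mono hle 1 (of_sub_mem hk hk' e')
  have h3 : of k ∈ U (M + z) := of_mem_U (strands_mono hle hk)
  have h4 : of h' ∈ U (M + z) := of_mem_U (strands_mono hle hh')
  rw [← map_sub]
  have e3 : of h * ext (wide m z) y * of k - of h' * ext (wide m z) y * of k' =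
      (of h - of h') * ext (wide m z) y * of k + of h' * (ext (wide m z) y * (of k - of k')) := by
    noncomm_ring
  rw [e3]
  apply T_mem_J
  refine add_mem ?_ ?_
  · have := I_mul_U (mul_mem_I h1 hY) h3
    rwa [add_comm 1 j] at this
  · exact U_mul_I h4 (mul_mem_I hY h2)

theorem unip_stabA {m z M : ℕ} (hM : m ≤ M) (hz : 1 ≤ m + z) {a b k : Braid}
    (ha : a ∈ strands (m + z)) (hb : b ∈ strands (m + z)) (hk : k ∈ strands (m + z)) {y : R}
    (hy : y ∈ U M) :
    T m (M + (z + 1)) (of (a * sig (m + z - 1) * b) * ext (wide m (z + 1)) y * of k) =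
      T m (M + z) (of (a * b) * ext (wide m z) y * of k) := by
  have hle : m + z ≤ M + z := by omega
  refine Submodule.span_induction (p := fun y _ =>
    T m (M + (z + 1)) (of (a * sig (m + z - 1) * b) * ext (wide m (z + 1)) y * of k) =
      T m (M + z) (of (a * b) * ext (wide m z) y * of k)) ?_ ?_ ?_ ?_ hy
  · rintro _ ⟨c, hc, rfl⟩
    rw [ext_of, ext_of]
    simp only [← FreeAbelianGroup.of_mul]
    rw [T_of, T_of]
    have h1 := T0_ins_stab (m := m) (l := m + z) (L := M + z) (by omega) hz hle
      (p := a) (q := b * wide m z c * k) (strands_mono hle ha)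
      (mul_mem (mul_mem (strands_mono hle hb) (wide_mem hM hc)) (strands_mono hle hk)) true
    rw [map_mul, map_mul, ins_of_strands ha, ins_of_strands hb, ins_of_strands hk, ← wide_succ,
      letter_true] at h1
    simp only [mul_assoc, add_assoc] at h1 ⊢
    exact h1
  · simp
  · intro x y _ _ hx hy
    simp only [map_add, mul_add, add_mul, hx, hy]
  · intro n x _ hx
    simp only [map_zsmul, mul_smul_comm, smul_mul_assoc, hx]

theorem unip_stabB {m z M : ℕ} (hM : m ≤ M) (hz : 1 ≤ m + z) {a b h : Braid}
    (ha : a ∈ strands (m + z)) (hb : b ∈ strands (m + z)) (hh : h ∈ strands (m + z)) {y : R}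
    (hy : y ∈ U M) :
    T m (M + (z + 1)) (of h * ext (wide m (z + 1)) y * of (a * sig (m + z - 1) * b)) =
      T m (M + z) (of h * ext (wide m z) y * of (a * b)) := by
  have hle : m + z ≤ M + z := by omega
  refine Submodule.span_induction (p := fun y _ =>
    T m (M + (z + 1)) (of h * ext (wide m (z + 1)) y * of (a * sig (m + z - 1) * b)) =
      T m (M + z) (of h * ext (wide m z) y * of (a * b))) ?_ ?_ ?_ ?_ hy
  · rintro _ ⟨c, hc, rfl⟩
    rw [ext_of, ext_of]
    simp only [← FreeAbelianGroup.of_mul]
    rw [T_of, T_of]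
    have h1 := T0_ins_stab (m := m) (l := m + z) (L := M + z) (by omega) hz hle
      (p := h * wide m z c * a) (q := b)
      (mul_mem (mul_mem (strands_mono hle hh) (wide_mem hM hc)) (strands_mono hle ha))
      (strands_mono hle hb) true
    rw [map_mul, map_mul, ins_of_strands ha, ins_of_strands hb, ins_of_strands hh, ← wide_succ,
      letter_true] at h1
    simp only [mul_assoc, add_assoc] at h1 ⊢
    exact h1
  · simp
  · intro x y _ _ hx hy
    simp only [map_add, mul_add, add_mul, hx, hy]
  · intro n x _ hx
    simp only [map_zsmul, mul_smul_comm, smul_mul_assoc, hx]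

/-! ### The cycle argument -/

theorem unip_exists {m z : ℕ} {h k : Braid} (H : Hole m (z + 1) h k) :
    ∃ c, m ≤ c ∧ c < m + (z + 1) ∧ (m ≤ perm k c ∨ m ≤ (perm h)⁻¹ c) := by
  by_contra hcon
  push Not at hcon
  have hkl := (hcon (m + z) (by omega) (by omega)).1
  set i := perm k (m + z) with hi
  have hik : (perm k)⁻¹ i = m + z := by rw [hi, unip_inv_apply]
  have hp := H.pass i hkl
  rw [hik] at hp
  -- `d = perm k i ≥ m`
  have hd : m ≤ perm k i := by
    by_contra hd
    push Not at hd
    have h1 := H.pass (perm k i) hd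
    rw [unip_inv_apply] at h1
    have h2 := H.str.eq_of_sameCycle hkl hd h1
    have h3 : perm k i = perm k (m + z) := by rw [← hi]; exact h2.symm
    have h4 := (perm k).injective h3
    omega
  have hilt : i < m + (z + 1) := by omega
  have hdlt : perm k i < m + (z + 1) := perm_lt H.hk hilt
  have he : perm h (perm k i) < m := by
    by_contra he
    push Not at he
    have h1 := (hcon (perm h (perm k i)) he (perm_lt H.hh hdlt)).2
    rw [unip_inv_apply] at h1
    omega
  have hw : perm (h * k) i = perm h (perm k i) := by rw [map_mul, Perm.mul_apply]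
  have hs : (perm (h * k)).SameCycle i (perm h (perm k i)) := by
    rw [← hw]
    exact Perm.sameCycle_apply_right.2 (Perm.SameCycle.refl _ _)
  have hfix : i = perm h (perm k i) := H.str.eq_of_sameCycle hkl he hs
  have hfix' : Function.IsFixedPt (perm (h * k)) i := by
    change perm (h * k) i = i
    rw [hw, ← hfix]
  have := (hp.symm).eq_of_left hfix'
  omega

/-- A braid of a string diagram moves the last strand. -/
theorem unip_ne {m l : ℕ} {w : Perm ℕ} (hs : Str m (l + 1) w) (hml : m ≤ l) : w l ≠ l := by
  intro hfix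
  obtain ⟨i, ⟨hi, hsc⟩, _⟩ := hs.2.2 l (by omega)
  have : Function.IsFixedPt w l := hfix
  have := hsc.eq_of_right this
  omega

theorem unip_one_le {m l : ℕ} {w : Perm ℕ} (hs : Str m (l + 1) w) (hml : m ≤ l) : 1 ≤ l := by
  obtain ⟨i, ⟨hi, _⟩, _⟩ := hs.2.2 l (by omega)
  omega

/-- A transposition of two closed strands is the permutation of a braid of the closed strands. -/
theorem unip_swap {m L a b : ℕ} (ha : m ≤ a) (hb : m ≤ b) (ha' : a < L) (hb' : b < L) :
    ∃ g ∈ final m L, perm g = swap a b :=
  exists_final (fun c hc => swap_apply_of_ne_of_ne (by omega) (by omega))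
    (fun c hc => swap_apply_of_ne_of_ne (by omega) (by omega))

/-! ### The induction -/

theorem unip_main {m j : ℕ} : ∀ (z : ℕ) (h k : Braid), Hole m z h k → ∀ (M : ℕ), m ≤ M →
    ∀ y ∈ I M j, T m (M + z) (of h * ext (wide m z) y * of k) - T m M y ∈ J m (j + 1) := by
  intro z
  induction z with
  | zero =>
    intro h k H M hM y hy
    have hk1 : perm k = 1 := by
      ext a
      rw [Perm.one_apply]
      rcases Nat.lt_or_ge a m with ha | ha
      · have h1 := H.pass a ha
        have h2 : (perm k)⁻¹ a < m := unip_inv_lt H.hk ha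
        have h3 := H.str.eq_of_sameCycle h2 ha h1
        rw [Perm.inv_eq_iff_eq] at h3
        exact h3.symm
      · exact perm_of_le H.hk ha
    have hhk1 : perm (h * k) = 1 := by
      ext a
      rw [Perm.one_apply]
      rcases Nat.lt_or_ge a m with ha | ha
      · have h2 : perm (h * k) a < m := perm_lt (mul_mem H.hh H.hk) ha
        exact (H.str.eq_of_sameCycle ha h2
          (Perm.sameCycle_apply_right.2 (Perm.SameCycle.refl _ _))).symm
      · exact perm_of_le (mul_mem H.hh H.hk) ha
    have hh1 : perm h = 1 := by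
      rw [map_mul, hk1, mul_one] at hhk1
      exact hhk1
    have h1 := unip_replace (j := j) hM H.hh (one_mem _) H.hk (one_mem _)
      (by rw [hh1, map_one]) (by rw [hk1, map_one]) hy
    rw [FreeAbelianGroup.of_one, one_mul, mul_one] at h1
    have h2 : ext (wide m 0) y = y := unip_ext_id y
    rw [h2] at h1 ⊢
    exact h1
  | succ z ih =>
    intro h k H M hM y hy
    have hyU : y ∈ U M := I_le_U M j hy
    obtain ⟨c, hc1, hc2, hc⟩ := unip_exists H
    have hone : 1 ≤ m + z := unip_one_le (l := m + z) H.str (by omega)
    obtain ⟨l', hl'⟩ : ∃ l', m + z = l' + 1 := ⟨m + z - 1, by omega⟩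
    have hl'' : m + z - 1 = l' := by omega
    obtain ⟨g, hg, hgp⟩ := unip_swap (m := m) (L := m + (z + 1)) hc1 (by omega : m ≤ m + z) hc2
      (by omega)
    rcases hc with hc | hc
    · -- `perm k c ≥ m`
      obtain ⟨f, hf, hfp⟩ := unip_swap (m := m) (L := m + (z + 1)) hc (by omega : m ≤ m + z)
        (perm_lt H.hk hc2) (by omega)
      have H1 := H.move hf hg
      rw [← unip_move h k hf hg hM y]
      set h1 := g * h * f⁻¹ with hh1
      set k1 := f * k * g⁻¹ with hk1
      have hkfix : perm k1 (m + z) = m + z := by
        rw [hk1, map_mul, map_mul, map_inv, Perm.mul_apply, Perm.mul_apply, hgp, hfp, swap_inv,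
          swap_apply_right, swap_apply_left]
      have hkfix' : ∀ a, m + z ≤ a → perm k1 a = a := by
        intro a ha
        rcases Nat.eq_or_lt_of_le ha with rfl | ha
        · exact hkfix
        · exact perm_of_le H1.hk (by omega)
      obtain ⟨k', hk', hkp⟩ := exists_strands hkfix'
      have hne : perm h1 (m + z) ≠ m + z := by
        intro hh
        apply unip_ne (l := m + z) H1.str (by omega)
        rw [map_mul, Perm.mul_apply, hkfix, hh]
      obtain ⟨x, x', hx, hx', hxx⟩ := perm_factor (k := l') (w := perm h1)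
        (fun a ha => perm_of_le H1.hh (by omega)) (by rw [← hl']; exact hne)
      obtain ⟨a, ha, hap⟩ := exists_strands (M := m + z) (w := x) (fun c hc => hx c (by omega))
      obtain ⟨b, hb, hbp⟩ := exists_strands (M := m + z) (w := x') (fun c hc => hx' c (by omega))
      have hle : m + z ≤ m + (z + 1) := by omega
      have hab : perm (a * sig (m + z - 1) * b) = x * swap l' (l' + 1) * x' := by
        rw [map_mul, map_mul, perm_sig, hap, hbp, hl'']
      have hnew : perm h1 = perm (a * sig (m + z - 1) * b) := hxx.trans hab.symm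
      have hrep := unip_replace (j := j) hM H1.hh
        (mul_mem (mul_mem (strands_mono hle ha) (sig_mem_strands (by omega)))
          (strands_mono hle hb) : a * sig (m + z - 1) * b ∈ strands (m + (z + 1)))
        H1.hk (strands_mono hle hk') hnew hkp.symm hy
      rw [unip_stabA hM hone ha hb hk' hyU] at hrep
      -- the new hole
      have hx2 : ∀ c, l' < c → (perm a) c = c := by rw [hap]; exact hx
      have hy2 : ∀ c, l' < c → (perm b * perm k') c = c := by
        intro c hc
        rw [Perm.mul_apply, perm_of_le hk' (by omega), hbp, hx' c hc]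
      have hW : perm (h1 * k1) = perm a * swap l' (l' + 1) * (perm b * perm k') := by
        rw [map_mul, hxx, hap, hbp, hkp, mul_assoc, mul_assoc]
      have hW' : perm (a * b * k') = perm a * (perm b * perm k') := by
        rw [map_mul, map_mul, mul_assoc]
      have H2 : Hole m z (a * b) k' := by
        refine ⟨mul_mem ha hb, hk', ?_, ?_⟩
        · rw [hW', hl']
          refine (str_stab hx2 hy2 (by omega)).1 ?_
          rw [← hW]
          have := H1.str
          have e : m + (z + 1) = l' + 2 := by omega
          rwa [e] at this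
        · intro i hi
          have hp := H1.pass i hi
          rw [hW, ← hkp] at hp
          rw [hW']
          have hlt : (perm k')⁻¹ i < m + z := unip_inv_lt hk' (by omega)
          exact (sameCycle_stab hx2 hy2 (by omega) (by omega)).1 hp
      have hfin := ih (a * b) k' H2 M hM y hy
      have := add_mem hrep hfin
      rwa [sub_add_sub_cancel] at this
    · -- `perm h⁻¹ c ≥ m`
      obtain ⟨f, hf, hfp⟩ := unip_swap (m := m) (L := m + (z + 1)) hc (by omega : m ≤ m + z)
        (unip_inv_lt H.hh hc2) (by omega)
      have H1 := H.move hf hg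
      rw [← unip_move h k hf hg hM y]
      set h1 := g * h * f⁻¹ with hh1
      set k1 := f * k * g⁻¹ with hk1
      have hhfix : perm h1 (m + z) = m + z := by
        rw [hh1, map_mul, map_mul, map_inv, Perm.mul_apply, Perm.mul_apply, hgp, hfp, swap_inv,
          swap_apply_right, unip_apply_inv, swap_apply_left]
      have hhfix' : ∀ a, m + z ≤ a → perm h1 a = a := by
        intro a ha
        rcases Nat.eq_or_lt_of_le ha with rfl | ha
        · exact hhfix
        · exact perm_of_le H1.hh (by omega)
      obtain ⟨h', hh', hhp⟩ := exists_strands hhfix'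
      have hne : perm k1 (m + z) ≠ m + z := by
        intro hh
        apply unip_ne (l := m + z) H1.str (by omega)
        rw [map_mul, Perm.mul_apply, hh, hhfix]
      obtain ⟨x, x', hx, hx', hxx⟩ := perm_factor (k := l') (w := perm k1)
        (fun a ha => perm_of_le H1.hk (by omega)) (by rw [← hl']; exact hne)
      obtain ⟨a, ha, hap⟩ := exists_strands (M := m + z) (w := x) (fun c hc => hx c (by omega))
      obtain ⟨b, hb, hbp⟩ := exists_strands (M := m + z) (w := x') (fun c hc => hx' c (by omega))
      have hle : m + z ≤ m + (z + 1) := by omega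
      have hab : perm (a * sig (m + z - 1) * b) = x * swap l' (l' + 1) * x' := by
        rw [map_mul, map_mul, perm_sig, hap, hbp, hl'']
      have hnew : perm k1 = perm (a * sig (m + z - 1) * b) := hxx.trans hab.symm
      have hrep := unip_replace (j := j) hM H1.hh (strands_mono hle hh') H1.hk
        (mul_mem (mul_mem (strands_mono hle ha) (sig_mem_strands (by omega)))
          (strands_mono hle hb) : a * sig (m + z - 1) * b ∈ strands (m + (z + 1)))
        hhp.symm hnew hy
      rw [unip_stabB hM hone ha hb hh' hyU] at hrep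
      -- the new hole
      have hx2 : ∀ c, l' < c → (perm h' * perm a) c = c := by
        intro c hc
        rw [Perm.mul_apply, hap, hx c hc, perm_of_le hh' (by omega)]
      have hy2 : ∀ c, l' < c → (perm b) c = c := by rw [hbp]; exact hx'
      have hW : perm (h1 * k1) = (perm h' * perm a) * swap l' (l' + 1) * perm b := by
        rw [map_mul, hxx, hap, hbp, hhp, mul_assoc, mul_assoc, mul_assoc]
      have hW' : perm (h' * (a * b)) = (perm h' * perm a) * perm b := by
        rw [map_mul, map_mul, mul_assoc]
      have H2 : Hole m z h' (a * b) := by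
        refine ⟨hh', mul_mem ha hb, ?_, ?_⟩
        · rw [hW', hl']
          refine (str_stab hx2 hy2 (by omega)).1 ?_
          rw [← hW]
          have := H1.str
          have e : m + (z + 1) = l' + 2 := by omega
          rwa [e] at this
        · intro i hi
          have hp := H1.pass i hi
          rw [hW] at hp
          rw [hW']
          have hlt : (perm (a * b))⁻¹ i < m + z := unip_inv_lt (mul_mem ha hb) (by omega)
          refine (sameCycle_stab hx2 hy2 (by omega) (by omega)).1 ?_
          have hlt2 : (perm a)⁻¹ i < m + z := unip_inv_lt ha (by omega)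
          have e1 : (perm k1)⁻¹ i = (perm b)⁻¹ (swap l' (l' + 1) ((perm a)⁻¹ i)) := by
            rw [hnew, map_mul, map_mul, perm_sig, hl'', mul_inv_rev, mul_inv_rev, swap_inv,
              Perm.mul_apply, Perm.mul_apply]
          have e2 : (perm (a * b))⁻¹ i = (perm b)⁻¹ ((perm a)⁻¹ i) := by
            rw [map_mul, mul_inv_rev, Perm.mul_apply]
          rw [e1] at hp
          rw [e2]
          by_cases hq : (perm a)⁻¹ i = l'
          · rw [hq] at hp ⊢
            rw [swap_apply_left, unip_inv_le hb (by omega)] at hp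
            refine Perm.SameCycle.trans ?_ hp
            refine Perm.SameCycle.trans (Perm.sameCycle_apply_right.2
              (Perm.SameCycle.refl _ _)) ?_
            rw [Perm.mul_apply, Perm.mul_apply, unip_apply_inv, swap_apply_left,
              hx2 _ (by omega)]
          · rwa [swap_apply_of_ne_of_ne hq (by omega)] at hp
      have hfin := ih h' (a * b) H2 M hM y hy
      have := add_mem hrep hfin
      rwa [sub_add_sub_cancel] at this

theorem holeL_unip {m z : ℕ} {h k : Braid} (H : Hole m z h k) {j : ℕ} {x : A m}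
    (hx : x ∈ J m j) : holeL H x - x ∈ J m (j + 1) := by
  have h1 : J m j ≤ (J m (j + 1)).comap (holeL H - LinearMap.id) := by
    rw [J_le_iff]
    intro M hM y hy
    rw [Submodule.mem_comap, LinearMap.sub_apply, LinearMap.id_apply,
      holeL_T H hM (I_le_U M j hy)]
    exact unip_main z h k H M hM y hy
  exact h1 hx

end Pool.Agent.Helper399_SL
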